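import Pool.Agent.Lib.SmNH.J.Gr
import Pool.Agent.Lib.SmN.J.Main

/-!
HEIGHTS over SMITH-U, block J+: **JHThm**.
-/

set_option autoImplicit false

open Module Finset

namespace Pool.Agent.SmNH.J

open Pool.Agent.SmN Pool.Agent.SmN.J

variable {G V V1 Pl : Type} [Group G] [AddCommGroup V] [DistribMulAction G V]
  [AddCommGroup V1] [Module (ZMod 2) V1] {S : Sys G V V1 Pl} {X : PSys} {cd : CData S X}

theorem drop_two {s a b c : ℝ} (h : s + a + b ≤ c) (ha : 0 ≤ a) (hb : 0 ≤ b) : s ≤ c := by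
  linarith

/-- **Block J+.** -/
theorem jHThm [Nontrivial V1] {Geo : Subgroup G} {fr : G} {q a C : ℕ} (hS : S.Ok) (hX : X.Ok q)
    (hc : cd.Ok) (hG : CData.GeoOk (S := S) Geo fr) (hC : cd.Cheb Geo fr q a C)
    (hfr : fr ∈ S.GN) (c0 : ℝ) (hc0 : 0 < c0) (r0 : {g : G // g ∈ cd.R}) :
    cd.JHThm c0 r0 := by
  classical
  obtain ⟨N1, hN1, hN1i, hsg, hk⟩ := hc.kf_tf
  have H : Hyp cd Geo fr q a C N1 := ⟨hS, hX, hc, hG, hC, hN1, hN1i, hsg, hk⟩
  have hfin1 := hS.fin1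
  have hKf := hc.kf_fin
  have : Fintype cd.Kf := Fintype.ofFinite _
  have : Inhabited cd.Kf := ⟨cd.kf 1⟩
  intro ε hε
  -- constants
  set v : ℝ := (Nat.card V1 : ℝ) with hv
  have hv2 : 2 ≤ Nat.card V1 := Finite.one_lt_card
  have hv2' : (2 : ℝ) ≤ v := by
    rw [hv]
    exact_mod_cast hv2
  set Z : ℝ := (Nat.card (Fin cd.h → ZMod 2) : ℝ) with hZ
  have hZ0 : 1 ≤ Z := by
    rw [hZ]
    exact_mod_cast Nat.card_pos
  set κ : ℝ := 1 / (2 * (cd.R.card * N1.index)) with hκ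
  have hR1 : (1 : ℝ) ≤ cd.R.card := by exact_mod_cast Finset.card_pos.2 (R_nonempty hc)
  have hI1 : (1 : ℝ) ≤ N1.index := by exact_mod_cast Nat.pos_of_ne_zero hN1i
  have hκ0 : 0 < κ := by positivity
  have hκ1 : κ ≤ 1 := by
    rw [hκ, div_le_one (by positivity)]
    nlinarith
  -- the theorem for the weak sense
  obtain ⟨R, ρ1, δ1, hρ1, hδ1, n0, hn0J⟩ := jThm hS hX hc hG hC 1 (by rw [pow_one]; exact hfr) c0
    hc0 r0 (ε / 2) (by positivity)
  -- the rates
  set θ : ℝ := 1 - κ / (4 * v ^ (R + 1)) with hθ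
  have hvR : (1 : ℝ) ≤ v ^ (R + 1) := one_le_pow₀ (by linarith)
  have hx0 : 0 < κ / (4 * v ^ (R + 1)) := by positivity
  have hx1 : κ / (4 * v ^ (R + 1)) ≤ 1 / 4 := by
    rw [div_le_div_iff₀ (by positivity) (by norm_num)]
    nlinarith
  have hθ0 : 0 < θ := by rw [hθ]; linarith
  have hθ1 : θ < 1 := by rw [hθ]; linarith
  set lθ : ℝ := -Real.log θ with hlθ
  have hlθ0 : 0 < lθ := by
    rw [hlθ]
    linarith [Real.log_neg hθ0 hθ1]
  set θ1 : ℝ := 1 - κ / 4 with hθ1d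
  have hθ10 : 0 < θ1 := by rw [hθ1d]; linarith
  have hθ11 : θ1 < 1 := by rw [hθ1d]; linarith
  set l1 : ℝ := -Real.log θ1 with hl1
  have hl10 : 0 < l1 := by
    rw [hl1]
    linarith [Real.log_neg hθ10 hθ11]
  have hlv : 0 < Real.log v := Real.log_pos (by linarith)
  have hl2 : 0 < Real.log 2 := Real.log_pos (by norm_num)
  set ρ2 : ℝ := c0 * lθ / (4 * Real.log 2) with hρ2d
  have hρ2 : 0 < ρ2 := by positivity
  set δ2 : ℝ := c0 * l1 / (2 * Real.log v) with hδ2d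
  have hδ2 : 0 < δ2 := by positivity
  set ρ : ℝ := min ρ1 ρ2 with hρ
  have hρ0 : 0 < ρ := lt_min hρ1 hρ2
  set δ : ℝ := min δ1 δ2 with hδ
  have hδ0 : 0 < δ := lt_min hδ1 hδ2
  -- the constant of the third term
  set C3 : ℝ := 2 ^ ((R + 1) * (R + 1)) * Z ^ (R + 1) * v ^ ((R + 1) * (R + 1)) * v ^ (R + 1)
    with hC3
  have hC30 : 0 ≤ C3 := by positivity
  refine ⟨R, ρ, δ, hρ0, hδ0, ?_⟩
  obtain ⟨n1, hn1⟩ := small_exp (Z * (2 * Z * v ^ 3) * 2) (c0 * l1 / 2) (ε / 2 / 3)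
    (by positivity) (by positivity)
  obtain ⟨n2, hn2⟩ := small_exp (((R + 1 : ℕ) + 1) * (C3 * (2 * 2))) (c0 * lθ / 2) (ε / 2 / 3)
    (by positivity) (by positivity)
  obtain ⟨n3, hn3⟩ := num_Sm (q := q) (a := a) (C := C) cd hX N1 hN1i
  obtain ⟨n4, hn4⟩ := log_large 6
  obtain ⟨n5, hn5⟩ := exists_nat_ge (4 * v ^ (R + 1) / κ)
  refine ⟨max (max (max n1 n2) (max n3 n4)) (max n5 (max n0 1)), fun n hn Ds T hGrH => ?_⟩
  have e1 : n1 ≤ n := le_trans (le_trans (le_trans (le_max_left _ _) (le_max_left _ _))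
    (le_max_left _ _)) hn
  have e2 : n2 ≤ n := le_trans (le_trans (le_trans (le_max_right _ _) (le_max_left _ _))
    (le_max_left _ _)) hn
  have e3 : n3 ≤ n := le_trans (le_trans (le_trans (le_max_left _ _) (le_max_right _ _))
    (le_max_left _ _)) hn
  have e4 : n4 ≤ n := le_trans (le_trans (le_trans (le_max_right _ _) (le_max_right _ _))
    (le_max_left _ _)) hn
  have e5 : n5 ≤ n := le_trans (le_trans (le_max_left _ _) (le_max_right _ _)) hn
  have e0 : n0 ≤ n := le_trans (le_trans (le_trans (le_max_left _ _) (le_max_right _ _))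
    (le_max_right _ _)) hn
  have e6 : 1 ≤ n := le_trans (le_trans (le_trans (le_max_right _ _) (le_max_right _ _))
    (le_max_right _ _)) hn
  have hGr := hGrH.gr
  set L := Real.log n with hL
  have hL6 : 6 ≤ L := hn4 n e4
  have hn0 : (0 : ℝ) < n := by exact_mod_cast e6
  have hexpL : Real.exp L = n := Real.exp_log hn0
  have h4L : 4 * L ≤ n := by
    have := Real.quadratic_le_exp_of_nonneg (show 0 ≤ L by linarith)
    rw [hexpL] at this
    nlinarith
  set η : ℝ := 1 / n with hη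
  have hη0 : 0 ≤ η := by positivity
  have hηκ : η ≤ κ / (4 * v ^ (R + 1)) := by
    have h1 : 4 * v ^ (R + 1) / κ ≤ n := hn5.trans (by exact_mod_cast e5)
    rw [hη, div_le_div_iff₀ hn0 (by positivity)]
    rw [div_le_iff₀ hκ0] at h1
    linarith
  have hηκ' : η ≤ κ / 4 := by
    refine hηκ.trans ?_
    exact div_le_div_of_nonneg_left hκ0.le (by norm_num) (by linarith)
  -- the grid
  have hN0pos : 1 ≤ N0 n := by
    rw [N0]
    refine Nat.le_floor ?_
    rw [Nat.cast_one]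
    exact one_le_pow₀ (show (1 : ℝ) ≤ L by linarith)
  have hDT : ∀ P ∈ Ds, ∀ t ∈ T, X.deg P ≠ t := by
    intro P hP t ht
    have h1 := hGr.sml P hP
    have h2 := hGr.large t ht
    omega
  have hT1 : ∀ t ∈ T, 1 ≤ t := fun t ht => hN0pos.trans (hGr.large t ht)
  set g := grd cd r0 Ds T n hDT hT1 hGr.deg.le with hg
  have hgns : g.ns = Ds.card := rfl
  have hgM : g.M = Ds.card + T.card := rfl
  have hddT : ∀ j, g.ns ≤ j → j < g.M → g.dd j ∈ T := by
    intro j hj hjM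
    have hjM' : j < Ds.card + T.card := hjM
    change (if h : j < Ds.card + T.card then DJ (sg Ds T ⟨j, h⟩) else 0) ∈ T
    rw [dif_pos hjM']
    obtain ⟨t, ht⟩ := sg_large Ds T ⟨j, hjM'⟩ hj
    rw [ht]
    exact t.2
  have hM2L : (g.M : ℝ) ≤ 2 * L := by
    rw [hgM]
    exact hGr.few
  have hsm : Sm cd q a C N1 g η := by
    intro j hj hjM
    have h1 := hddT j hj hjM
    have h2 : g.dd j ≤ n := by
      have h3 : g.dd j ≤ ∑ t ∈ T, t := Finset.single_le_sum (f := fun t => t)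
        (fun _ _ => Nat.zero_le _) h1
      have h4 := hGr.deg
      omega
    refine hn3 n e3 j (g.dd j) ?_ (hGr.large _ h1) (hT1 _ h1) h2
    have h5 : (j : ℝ) ≤ g.M := by exact_mod_cast hjM.le
    linarith
  have hGW := gwO H g hη0 hsm hfr
  -- the number k
  set k : ℕ := ⌈ρ * (2 * L)⌉₊ with hkd
  have hk1 : ρ * ((Ds.card + T.card : ℕ) : ℝ) ≤ k := by
    refine le_trans ?_ (Nat.le_ceil _)
    exact mul_le_mul_of_nonneg_left hGr.few hρ0.le
  have hk2 : (k : ℝ) ≤ ρ2 * (2 * L) + 1 := by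
    refine (Nat.ceil_lt_add_one (by positivity)).le.trans ?_
    have : ρ * (2 * L) ≤ ρ2 * (2 * L) :=
      mul_le_mul_of_nonneg_right (min_le_right _ _) (by linarith)
    linarith
  have hρJ : 0 < ρ * ((Ds.card + T.card : ℕ) : ℝ) := by
    refine mul_pos hρ0 ?_
    have h1 : (0 : ℝ) < (T.filter fun t => Odd t).card := by
      refine lt_of_lt_of_le ?_ hGrH.odd
      exact mul_pos hc0 (by linarith)
    have h2 : (T.filter fun t => Odd t).card ≤ T.card := Finset.card_filter_le _ _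
    have h3 : 0 < (T.filter fun t => Odd t).card := by exact_mod_cast h1
    have h4 : 0 < Ds.card + T.card := by omega
    exact_mod_cast h4
  have h1 := card_notTypHN H r0 Ds T n hDT hT1 hGr.deg.le (R := R) (N0 := N0 n) hk1 hρJ
    hGr.large hGr.sml
  have he : ∀ y : V1, (∀ v, (gd H g).e v y = 0) → y = 0 := fun y hy => e_nondeg' hS y hy
  have h2 := card_notTypH hGW hv2 he (dpar g) (fun j hj => dpar_gO g j hj) R k
  have h3 := pts_grd H r0 Ds T n hDT hT1 hGr.deg.le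
  rw [← hg] at h3
  have hfM := finite_MPts hX cd T
  -- the first part
  have hGr1 : GrN X 1 c0 δ1 n Ds T := ⟨hGr.deg, hGr.few, hGr.large, hGr.sml, hGr.many,
    hGr.small.trans (mul_le_mul_of_nonneg_right (min_le_left _ _) (by linarith))⟩
  have h4 := hn0J n e0 Ds T hGr1
  have h5 : Nat.card {x : cd.MPts T // ¬ cd.TypN (cd.vec r0 Ds x) R ρ (N0 n)} ≤
      Nat.card {x : cd.MPts T // ¬ cd.TypN (cd.vec r0 Ds x) R ρ1 (N0 n)} := by
    refine Nat.card_le_card_of_injective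
      (fun x : {x : cd.MPts T // ¬ cd.TypN (cd.vec r0 Ds x) R ρ (N0 n)} =>
        (⟨x.1, fun hT => x.2 ⟨hT.small, fun r c hc hI w => ?_⟩⟩ :
          {x : cd.MPts T // ¬ cd.TypN (cd.vec r0 Ds x) R ρ1 (N0 n)})) ?_
    · refine le_trans ?_ (hT.generic r c hc hI w)
      exact mul_le_mul_of_nonneg_right (min_le_left _ _) (Nat.cast_nonneg _)
    · intro x y hxy
      exact Subtype.ext (congrArg (fun s :
        {x : cd.MPts T // ¬ cd.TypN (cd.vec r0 Ds x) R ρ1 (N0 n)} => s.1) hxy)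
  have h6 : (Nat.card {x : cd.MPts T // ¬ cd.TypHN (cd.vec r0 Ds x) R ρ (N0 n)} : ℝ) ≤
      ε / 2 * Nat.card (cd.MPts T) +
      Nat.card {p : Fin g.M → cd.Mk // (∀ j : Fin g.M, p j ∈ g.Xs j) ∧
        ¬ TypH (gd H g) (gO g) (spK cd) (dpar g) R k p} := by
    have h7 : (Nat.card {x : cd.MPts T // ¬ cd.TypN (cd.vec r0 Ds x) R ρ (N0 n)} : ℝ) ≤
        ε / 2 * Nat.card (cd.MPts T) := le_trans (Nat.cast_le.2 h5) h4
    refine (Nat.cast_le.2 h1).trans ?_
    rw [Nat.cast_add]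
    exact add_le_add_left h7 _
  refine h6.trans ?_
  have hsplit : ε * (Nat.card (cd.MPts T) : ℝ) = ε / 2 * Nat.card (cd.MPts T) +
      (ε / 2 / 3 * Nat.card (cd.MPts T) + ε / 2 / 3 * Nat.card (cd.MPts T) +
        ε / 2 / 3 * Nat.card (cd.MPts T)) := by ring
  rw [hsplit]
  refine add_le_add_right ?_ _
  refine h2.trans ?_
  rw [← h3]
  have hpts : 0 ≤ (gd H g).pts := GD.pts_nonneg
  generalize (gd H g).pts = pts at hpts
  -- the first factor
  have hMe : (1 + η) ^ (gd H g).M ≤ 2 := by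
    have h4 : (1 + η) ^ g.M ≤ Real.exp (g.M * η) := by
      rw [Real.exp_nat_mul]
      refine pow_le_pow_left₀ (by positivity) ?_ _
      linarith [Real.add_one_le_exp η]
    have h5 : g.M * η ≤ 1 / 2 := by
      rw [hη, mul_one_div, div_le_iff₀ hn0]
      linarith
    have h6 : Real.exp (g.M * η) ≤ 2 := by
      refine (Real.exp_le_exp.2 h5).trans ?_
      have h7 := Real.exp_one_lt_d9
      have h8 : Real.exp (1 / 2) * Real.exp (1 / 2) = Real.exp 1 := by
        rw [← Real.exp_add]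
        norm_num
      have h9 : 0 < Real.exp (1 / 2 : ℝ) := Real.exp_pos _
      nlinarith
    exact h4.trans h6
  have hA : c0 * L ≤ (gO g).card := by
    refine hGrH.odd.trans ?_
    exact_mod_cast card_gO_grd r0 Ds T n hDT hT1 hGr.deg.le
  have hM0 : (0 : ℝ) ≤ (1 + η) ^ (gd H g).M := by positivity
  generalize (1 + η) ^ (gd H g).M = E at hMe hM0
  have hns : ((gd H g).ns : ℝ) ≤ c0 * l1 / (2 * Real.log v) * L :=
    hGr.small.trans (mul_le_mul_of_nonneg_right (min_le_right _ _) (by linarith))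
  have t1 := est1 (ε := ε / 2) (Z := Z * (2 * Z * v ^ 3)) (E := E) (b := 1 + η - κ / 2)
    (ns := (gd H g).ns) (A := (gO g).card) hpts (by positivity) (by linarith : 1 < v) hMe
    (by linarith) (by rw [hθ1d]; linarith) hθ10 hθ11.le hl1 hA hns (hn1 n e1)
  have t3 := est3 (ε := ε / 2) (k := k) (E := E) (A := (gO g).card) (R := R + 1) hpts hZ0
    (by linarith : 1 ≤ v) hM0 hMe hκ0 hκ1 hη0 hηκ hθ hθ0 hθ1.le hlθ hA hk2 (hn2 n e2)
  let F : ℕ → ℝ := fun r => 2 ^ (r * r) * Z ^ r * v ^ (r * r) * (v ^ r *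
      (2 ^ k * (E * (1 + η - κ / (2 * v ^ r)) ^ (gO g).card * pts)))
  have hterm : ∀ r : ℕ, 0 ≤ F r := by
    intro r
    have hvr : 1 ≤ v ^ r := one_le_pow₀ (by linarith)
    have h7 : κ / (2 * v ^ r) ≤ 1 / 2 := by
      rw [div_le_div_iff₀ (by positivity) (by norm_num)]
      nlinarith
    have hbA : 0 ≤ (1 + η - κ / (2 * v ^ r)) ^ (gO g).card := pow_nonneg (by linarith) _
    simp only [F]
    positivity
  have t4 : ∑ r ∈ Finset.range (R + 1 + 1), F r ≤ ε / 2 / 3 * pts := t3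
  rw [Finset.sum_range_succ', Finset.sum_range_succ'] at t4
  have q0 := hterm 0
  have q1 := hterm (0 + 1)
  have q2 : 0 ≤ ε / 2 / 3 * pts := by positivity
  have t5 : ∑ r ∈ Finset.range R, F (r + 1 + 1) ≤ ε / 2 / 3 * pts := drop_two t4 q1 q0
  have t6 : ε / 2 / 3 * pts + ε / 2 / 3 * pts ≤
      ε / 2 / 3 * pts + ε / 2 / 3 * pts + ε / 2 / 3 * pts := by linarith
  exact (add_le_add t1 t5).trans t6

end Pool.Agent.SmNH.J
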