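import Pool.Agent.Lib.SmN.J.Count

/-!
HEIGHTS over SMITH-U, block J+: the number of families of places (with given types) satisfying the
equations of one family of codes in echelon form, outside the pivots. As in `SmN/J/Count.lean`, but
the last coordinate of a code may also be at a small place; then only the equations at the large
places are counted.
-/

set_option autoImplicit false

open Module

namespace Pool.Agent.SmNH.J

open Pool.Agent.SmN.J

variable {V α I : Type} [AddCommGroup V] [Module (ZMod 2) V]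

/-- The data for the counting theorem. -/
structure CG (V α I : Type) [AddCommGroup V] [Module (ZMod 2) V] where
  e : V →ₗ[ZMod 2] V →ₗ[ZMod 2] ZMod 2
  F : ℕ → Submodule (ZMod 2) V
  X : ℕ → Set α
  m : α → α → V →ₗ[ZMod 2] V →ₗ[ZMod 2] ZMod 2
  l : α → α → ZMod 2
  self : α → V → V → ZMod 2
  self0 : ∀ a v, self a v 0 = 0
  z : I → ℕ → V → ZMod 2
  R : ℕ → ℕ → V → V → ZMod 2
  R' : ℕ → ℕ → ZMod 2
  x : I → ℕ → V
  top : I → ℕ
  ns : ℕ
  c : ℕ → ℝ
  c0 : ∀ j, 0 ≤ c j
  hX : ∀ j, (X j).Finite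
  hx : ∀ i j, x i j ∈ F j
  hx0 : ∀ i j, top i < j → x i j = 0
  hind : ∀ t, LinearIndependent (ZMod 2) (fun i : {i // top i = t} => x i t)
  recip : ∀ i j, i < j → ∀ a ∈ X i, ∀ b ∈ X j, ∀ v ∈ F i, ∀ y ∈ F j,
    m a b v y + m b a y v = R i j v y
  recip' : ∀ i j, i < j → ∀ a ∈ X i, ∀ b ∈ X j, l a b + l b a = R' i j
  small : ∀ j < ns, Nat.card (X j) ≤ 1
  NI : ∀ M, ns ≤ M → ∀ p : Fin M → α, (∀ j : Fin M, p j ∈ X j) →
    ∀ (u : (j : Fin M) → RF (F M) (F j)) (ε : Fin M → ZMod 2),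
    (Nat.card {a : α // a ∈ X M ∧ ∀ j, (m a (p j)).domRestrict₁₂ (F M) (F j) = u j ∧
      l a (p j) = ε j} : ℝ) * (2 ^ M * ∏ j : Fin M, (Nat.card (RF (F M) (F j)) : ℝ)) ≤ c M

namespace CG

variable (C : CG V α I)

/-- The place `q` is not a pivot. -/
def NP (q : ℕ) : Prop := ∀ i, C.top i ≠ q

/-- The families of places satisfying the equations. -/
def Sol (M : ℕ) (η : ℕ → ZMod 2) (p : Fin M → α) : Prop :=
  (∀ j : Fin M, p j ∈ C.X j) ∧ ∀ i, C.top i < M → ∀ q : Fin M, C.NP q →
    (C.ns ≤ (q : ℕ) ∨ C.ns ≤ C.top i) → ∀ v ∈ C.F q,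
    eqn C.e C.m C.l C.self C.z C.x η p i q v = 0

theorem finite_pi (M : ℕ) (P : (Fin M → α) → Prop) (h : ∀ p, P p → ∀ j : Fin M, p j ∈ C.X j) :
    Finite {p : Fin M → α // P p} := by
  have : ∀ j : Fin M, Finite (C.X j) := fun j => (C.hX j).to_subtype
  exact Finite.of_injective (fun p : {p : Fin M → α // P p} =>
    (fun j => ⟨p.1 j, h p.1 p.2 j⟩ : (j : Fin M) → C.X j)) (by
      intro p p' h
      apply Subtype.ext
      funext j
      exact congrArg Subtype.val (congrFun h j))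

theorem eqn_castSucc (η : ℕ → ZMod 2) {M : ℕ} (p : Fin (M + 1) → α) (i : I) (q : Fin M) (v : V) :
    eqn C.e C.m C.l C.self C.z C.x η p i q.castSucc v =
      eqn C.e C.m C.l C.self C.z C.x η (fun j : Fin M => p j.castSucc) i q v +
      (C.m (p q.castSucc) (p (Fin.last M)) v (C.x i M) +
        C.l (p q.castSucc) (p (Fin.last M)) * C.e v (C.x i q)) := by
  unfold eqn
  rw [Fin.sum_univ_castSucc, if_neg (Fin.castSucc_lt_last q).ne']
  simp only [Fin.val_castSucc, Fin.castSucc_inj, Fin.val_last]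
  abel

theorem eqn_last (η : ℕ → ZMod 2) {M : ℕ} (p : Fin (M + 1) → α) (i : I) (v : V)
    (h : C.x i M = 0) :
    eqn C.e C.m C.l C.self C.z C.x η p i (Fin.last M) v =
      C.z i M v + ∑ j : Fin M, C.m (p (Fin.last M)) (p j.castSucc) v (C.x i j) := by
  unfold eqn
  rw [Fin.sum_univ_castSucc, if_pos rfl]
  simp only [Fin.val_castSucc, Fin.val_last, h, C.self0, map_zero, mul_zero, add_zero]
  congr 1
  refine Finset.sum_congr rfl fun j _ => ?_
  rw [if_neg (Fin.castSucc_lt_last j).ne]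

/-- The conditions on the last place, in terms of the lower places. -/
def Up (η : ℕ → ZMod 2) {M : ℕ} (p : Fin M → α) (ε : Fin M → ZMod 2) (a : α) : Prop :=
  a ∈ C.X M ∧ (∀ j, C.l a (p j) = ε j) ∧
  (∀ i, C.top i = M → ∀ q : Fin M, C.NP q → ∀ v ∈ C.F q, C.m a (p q) (C.x i M) v =
    eqn C.e C.m C.l C.self C.z C.x η p i q v + (ε q + C.R' q M) * C.e v (C.x i q) +
      C.R q M v (C.x i M)) ∧
  (C.NP M → ∀ i, C.top i < M → ∀ v ∈ C.F M,
    ∑ j : Fin M, C.m a (p j) v (C.x i j) = C.z i M v)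

theorem eq_of_add (a b : ZMod 2) (h : a + b = 0) : a = b := by revert a b; decide

/-- The twist vector for the lower places. -/
def tw (η : ℕ → ZMod 2) {M : ℕ} (ε : Fin M → ZMod 2) : ℕ → ZMod 2 :=
  fun q => η q + (if h : q < M then ε ⟨q, h⟩ else 0) + C.R' q M

theorem sol_split (η : ℕ → ZMod 2) {M : ℕ} (hnM : C.ns ≤ M) (p : Fin (M + 1) → α)
    (h : C.Sol (M + 1) η p) :
    C.Sol M (C.tw η fun j => C.l (p (Fin.last M)) (p j.castSucc)) (fun j => p j.castSucc) ∧
    C.Up η (fun j : Fin M => p j.castSucc) (fun j => C.l (p (Fin.last M)) (p j.castSucc))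
      (p (Fin.last M)) := by
  obtain ⟨hX, he⟩ := h
  have hl : ∀ q : Fin M, C.l (p q.castSucc) (p (Fin.last M)) =
      C.l (p (Fin.last M)) (p q.castSucc) + C.R' q M := by
    intro q
    have h1 := C.recip' q M q.2 _ (hX q.castSucc) _ (hX (Fin.last M))
    rw [← h1]
    generalize C.l (p q.castSucc) (p (Fin.last M)) = a
    generalize C.l (p (Fin.last M)) (p q.castSucc) = b
    revert a b
    decide
  refine ⟨⟨fun j => hX j.castSucc, fun i hi q hq hor v hv => ?_⟩, hX (Fin.last M), fun j => rfl,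
    fun i hi q hq v hv => ?_, fun hM i hi v hv => ?_⟩
  · have h1 := he i (hi.trans M.lt_succ_self) q.castSucc hq hor v hv
    rw [C.eqn_castSucc, C.hx0 i M hi, map_zero, zero_add, hl] at h1
    rw [← h1]
    unfold eqn tw
    have h2 : (q : ℕ) < M := q.2
    simp only [h2, dif_pos]
    ring
  · have h1 := he i (hi.trans_lt M.lt_succ_self) q.castSucc hq (Or.inr (hi ▸ hnM)) v hv
    rw [C.eqn_castSucc, hl] at h1
    have h2 := C.recip q M q.2 _ (hX q.castSucc) _ (hX (Fin.last M)) v hv (C.x i M) (C.hx i M)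
    rw [← h2]
    generalize C.m (p q.castSucc) (p (Fin.last M)) v (C.x i M) = a at h1 ⊢
    generalize C.m (p (Fin.last M)) (p q.castSucc) (C.x i M) v = b at h1 ⊢
    generalize eqn C.e C.m C.l C.self C.z C.x η (fun j : Fin M => p j.castSucc) i q v = c at h1 ⊢
    beta_reduce
    generalize C.l (p (Fin.last M)) (p q.castSucc) = d at h1 ⊢
    generalize C.R' q M = f at h1 ⊢
    generalize C.e v (C.x i q) = g at h1 ⊢
    revert a b c d f g
    decide
  · have h1 := he i (hi.trans M.lt_succ_self) (Fin.last M) hM (Or.inl hnM) v hv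
    rw [C.eqn_last η p i v (C.hx0 i M hi)] at h1
    exact (eq_of_add _ _ h1).symm

variable [Finite V] [Finite I]

open Classical in
/-- The size of the target of the new equations. -/
noncomputable def tg (M : ℕ) : ℕ :=
  if C.NP M then Nat.card (C.F M) ^ Nat.card {i // C.top i < M}
  else (∏ q ∈ (Finset.range M).filter C.NP, Nat.card (C.F q)) ^ Nat.card {i // C.top i = M}

omit [Finite I] in
theorem card_res (M : ℕ) (S : Set ((j : Fin M) → RF (C.F M) (C.F j)))
    (hS : Nat.card S * C.tg M ≤ ∏ j : Fin M, Nat.card (RF (C.F M) (C.F j))) (hM : C.ns ≤ M)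
    (p : Fin M → α) (hp : ∀ j : Fin M, p j ∈ C.X j) (ε : Fin M → ZMod 2) :
    (Nat.card {a : α // a ∈ C.X M ∧ (∀ j, C.l a (p j) = ε j) ∧
      (fun j => (C.m a (p j)).domRestrict₁₂ (C.F M) (C.F j)) ∈ S} : ℝ) *
      (2 ^ M * C.tg M) ≤ C.c M := by
  classical
  have hfin : ∀ j : Fin M, Finite (RF (C.F M) (C.F j)) := fun j => finite_RF _ _
  have hXM := (C.hX M).to_subtype
  set A := {a : α // a ∈ C.X M ∧ (∀ j, C.l a (p j) = ε j) ∧
      (fun j => (C.m a (p j)).domRestrict₁₂ (C.F M) (C.F j)) ∈ S} with hA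
  let B : S → Type := fun u => {a : α // a ∈ C.X M ∧ ∀ j,
    (C.m a (p j)).domRestrict₁₂ (C.F M) (C.F j) = u.1 j ∧ C.l a (p j) = ε j}
  have hBfin : ∀ u : S, Finite (B u) := fun u =>
    Finite.of_injective (fun a : B u => (⟨a.1, a.2.1⟩ : C.X M)) (by
      intro a b h
      exact Subtype.ext (congrArg (fun t : C.X M => (t : α)) h))
  have h1 : Nat.card A ≤ Nat.card (Σ u : S, B u) := by
    refine Nat.card_le_card_of_injective (fun a : A => (⟨⟨_, a.2.2.2⟩,
      ⟨a.1, a.2.1, fun j => ⟨rfl, a.2.2.1 j⟩⟩⟩ : Σ u : S, B u)) ?_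
    intro a b h
    have h2 := congrArg (fun t : (Σ u : S, B u) => (t.2 : α)) h
    exact Subtype.ext h2
  have hSf : Fintype S := Fintype.ofFinite S
  rw [Nat.card_sigma] at h1
  set D : ℝ := ∏ j : Fin M, (Nat.card (RF (C.F M) (C.F j)) : ℝ) with hD
  have hDpos : 0 < D := Finset.prod_pos fun j _ => by exact_mod_cast Nat.card_pos
  have h3 : (Nat.card A : ℝ) * (2 ^ M * D) ≤ Nat.card S * C.c M := by
    calc (Nat.card A : ℝ) * (2 ^ M * D) ≤ (∑ u : S, Nat.card (B u) : ℕ) * (2 ^ M * D) := by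
          refine mul_le_mul_of_nonneg_right (by exact_mod_cast h1) (by positivity)
      _ = ∑ u : S, (Nat.card (B u) : ℝ) * (2 ^ M * D) := by
          rw [Nat.cast_sum, Finset.sum_mul]
      _ ≤ ∑ _u : S, C.c M := Finset.sum_le_sum fun u _ => C.NI M hM p hp u.1 ε
      _ = Nat.card S * C.c M := by
          rw [Finset.sum_const, Finset.card_univ, nsmul_eq_mul, Nat.card_eq_fintype_card]
  have h4 : (Nat.card S : ℝ) * C.tg M ≤ D := by
    rw [hD]
    exact_mod_cast hS
  have hc : 0 ≤ C.c M := C.c0 M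
  have h6 : (Nat.card A : ℝ) * (2 ^ M * C.tg M) * D ≤ C.c M * D := by
    calc (Nat.card A : ℝ) * (2 ^ M * C.tg M) * D = (Nat.card A : ℝ) * (2 ^ M * D) * C.tg M := by
          ring
      _ ≤ Nat.card S * C.c M * C.tg M := mul_le_mul_of_nonneg_right h3 (Nat.cast_nonneg _)
      _ = C.c M * (Nat.card S * C.tg M) := by ring
      _ ≤ C.c M * D := mul_le_mul_of_nonneg_left h4 hc
  exact le_of_mul_le_mul_right h6 hDpos

theorem card_Up (η : ℕ → ZMod 2) {M : ℕ} (hM : C.ns ≤ M) (p : Fin M → α)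
    (hp : ∀ j : Fin M, p j ∈ C.X j) (ε : Fin M → ZMod 2) :
    (Nat.card {a : α // C.Up η p ε a} : ℝ) * (2 ^ M * C.tg M) ≤ C.c M := by
  classical
  have hXM := (C.hX M).to_subtype
  -- the set of restricted forms
  obtain ⟨S, hS, hSA⟩ : ∃ S : Set ((j : Fin M) → RF (C.F M) (C.F j)),
      Nat.card S * C.tg M ≤ ∏ j : Fin M, Nat.card (RF (C.F M) (C.F j)) ∧
      ∀ a, C.Up η p ε a → (fun j => (C.m a (p j)).domRestrict₁₂ (C.F M) (C.F j)) ∈ S := by
    by_cases hNP : C.NP M
    · refine ⟨{u : (j : Fin M) → RF (C.F M) (C.F j) | ∀ i : {i // C.top i < M}, ∀ v : C.F M,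
        ∑ j : Fin M, u j v ⟨C.x i j, C.hx i j⟩ = C.z i M v}, ?_, ?_⟩
      · rw [tg, if_pos hNP]
        refine card_npiv (I := {i // C.top i < M}) C.F (C.F M) (fun i => C.x i)
          (fun i => C.hx i) (fun i => C.top i) (fun i => i.2) (fun i => C.hx0 i) (fun t => ?_)
          (fun i => C.z i M)
        exact (C.hind t).comp (fun i : {i : {i // C.top i < M} // C.top i = t} =>
          (⟨i.1.1, i.2⟩ : {i // C.top i = t})) (by
            intro i j h
            exact Subtype.ext (Subtype.ext (congrArg (fun t : {i // C.top i = t} => (t : I)) h)))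
      · intro a ha i v
        have h1 := ha.2.2.2 hNP i.1 i.2 v.1 v.2
        simpa [LinearMap.domRestrict₁₂_apply] using h1
    · refine ⟨{u : (j : Fin M) → RF (C.F M) (C.F j) | ∀ q ∈ Finset.univ.filter
        (fun q : Fin M => C.NP q), ∀ i : {i // C.top i = M}, ∀ v : C.F q,
        u q ⟨C.x i M, C.hx i M⟩ v = eqn C.e C.m C.l C.self C.z C.x η p i.1 q v +
          (ε q + C.R' q M) * C.e v (C.x i q) + C.R q M v (C.x i M)}, ?_, ?_⟩
      · rw [tg, if_neg hNP]
        have h1 := card_piv (I := {i // C.top i = M}) (fun j : Fin M => C.F j) (C.F M)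
          (fun i => C.x i M) (fun i => C.hx i M) (C.hind M)
          (Finset.univ.filter (fun q : Fin M => C.NP q))
          (fun q i v => eqn C.e C.m C.l C.self C.z C.x η p i.1 q v +
            (ε q + C.R' q M) * C.e v (C.x i q) + C.R q M v (C.x i M))
        have h2 : ∏ q ∈ (Finset.range M).filter C.NP, Nat.card (C.F q) =
            ∏ q ∈ Finset.univ.filter (fun q : Fin M => C.NP q), Nat.card (C.F q) := by
          rw [Finset.prod_filter, Finset.prod_filter,
            ← Fin.prod_univ_eq_prod_range (fun q => if C.NP q then Nat.card (C.F q) else 1)]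
        rw [h2]
        exact h1
      · intro a ha q hq i v
        have h1 := ha.2.2.1 i.1 i.2 q (Finset.mem_filter.1 hq).2 v.1 v.2
        simpa [LinearMap.domRestrict₁₂_apply] using h1
  refine le_trans (mul_le_mul_of_nonneg_right ?_ (by positivity)) (C.card_res M S hS hM p hp ε)
  have hfin : Finite {a : α // a ∈ C.X M ∧ (∀ j, C.l a (p j) = ε j) ∧
      (fun j => (C.m a (p j)).domRestrict₁₂ (C.F M) (C.F j)) ∈ S} :=
    Finite.of_injective (fun a => (⟨a.1, a.2.1⟩ : C.X M)) (by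
      intro a b h
      exact Subtype.ext (congrArg (fun t : C.X M => (t : α)) h))
  exact_mod_cast Nat.card_le_card_of_injective
    (fun a : {a : α // C.Up η p ε a} => (⟨a.1, a.2.1, a.2.2.1, hSA a.1 a.2⟩ :
      {a : α // a ∈ C.X M ∧ (∀ j, C.l a (p j) = ε j) ∧
      (fun j => (C.m a (p j)).domRestrict₁₂ (C.F M) (C.F j)) ∈ S})) (by
      intro a b h
      exact Subtype.ext (congrArg (fun t => (t.1 : α)) h))

theorem count_step (M : ℕ) (hM : C.ns ≤ M) (K : ℝ)
    (hK : ∀ η, (Nat.card {p : Fin M → α // C.Sol M η p} : ℝ) ≤ K) (η : ℕ → ZMod 2) :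
    (Nat.card {p : Fin (M + 1) → α // C.Sol (M + 1) η p} : ℝ) * C.tg M ≤ C.c M * K := by
  classical
  have hXM := (C.hX M).to_subtype
  have hf1 : ∀ η, Finite {p : Fin M → α // C.Sol M η p} := fun η =>
    C.finite_pi M _ fun p hp => hp.1
  have hf2 : ∀ (p : Fin M → α) (ε : Fin M → ZMod 2), Finite {a : α // C.Up η p ε a} :=
    fun p ε => Finite.of_injective (fun a : {a : α // C.Up η p ε a} => (⟨a.1, a.2.1⟩ : C.X M)) (by
      intro a b h
      exact Subtype.ext (congrArg (fun t : C.X M => (t : α)) h))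
  have h1 : Nat.card {p : Fin (M + 1) → α // C.Sol (M + 1) η p} ≤
      Nat.card (Σ ε : Fin M → ZMod 2, Σ p : {p : Fin M → α // C.Sol M (C.tw η ε) p},
        {a : α // C.Up η p.1 ε a}) := by
    refine Nat.card_le_card_of_injective (fun p : {p : Fin (M + 1) → α // C.Sol (M + 1) η p} =>
      (⟨fun j => C.l (p.1 (Fin.last M)) (p.1 j.castSucc),
        ⟨⟨fun j => p.1 j.castSucc, (C.sol_split η hM p.1 p.2).1⟩,
          ⟨p.1 (Fin.last M), (C.sol_split η hM p.1 p.2).2⟩⟩⟩ :
        Σ ε : Fin M → ZMod 2, Σ p : {p : Fin M → α // C.Sol M (C.tw η ε) p},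
        {a : α // C.Up η p.1 ε a})) ?_
    intro p p' h
    have h2 := congrArg (fun t : (Σ ε : Fin M → ZMod 2,
      Σ p : {p : Fin M → α // C.Sol M (C.tw η ε) p}, {a : α // C.Up η p.1 ε a}) =>
        (t.2.1.1, (t.2.2 : α))) h
    simp only [Prod.mk.injEq] at h2
    apply Subtype.ext
    funext j
    refine Fin.lastCases ?_ (fun j => ?_) j
    · exact h2.2
    · exact congrFun h2.1 j
  have h2 : (Nat.card (Σ ε : Fin M → ZMod 2, Σ p : {p : Fin M → α // C.Sol M (C.tw η ε) p},
        {a : α // C.Up η p.1 ε a}) : ℝ) * (2 ^ M * C.tg M) ≤ 2 ^ M * (K * C.c M) := by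
    rw [Nat.card_sigma, Nat.cast_sum, Finset.sum_mul]
    have h3 : ∀ ε : Fin M → ZMod 2, (Nat.card (Σ p : {p : Fin M → α // C.Sol M (C.tw η ε) p},
        {a : α // C.Up η p.1 ε a}) : ℝ) * (2 ^ M * C.tg M) ≤ K * C.c M := by
      intro ε
      have := Fintype.ofFinite {p : Fin M → α // C.Sol M (C.tw η ε) p}
      rw [Nat.card_sigma, Nat.cast_sum, Finset.sum_mul]
      calc ∑ p : {p : Fin M → α // C.Sol M (C.tw η ε) p},
            (Nat.card {a : α // C.Up η p.1 ε a} : ℝ) * (2 ^ M * C.tg M) ≤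
            ∑ _p : {p : Fin M → α // C.Sol M (C.tw η ε) p}, C.c M :=
            Finset.sum_le_sum fun p _ => C.card_Up η hM p.1 p.2.1 ε
        _ = (Nat.card {p : Fin M → α // C.Sol M (C.tw η ε) p} : ℝ) * C.c M := by
            rw [Finset.sum_const, Finset.card_univ, nsmul_eq_mul, Nat.card_eq_fintype_card]
        _ ≤ K * C.c M := by
            exact mul_le_mul_of_nonneg_right (hK _) (C.c0 M)
    calc _ ≤ ∑ _ε : Fin M → ZMod 2, K * C.c M := Finset.sum_le_sum fun ε _ => h3 ε
      _ = 2 ^ M * (K * C.c M) := by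
          rw [Finset.sum_const, Finset.card_univ, nsmul_eq_mul]
          simp [ZMod.card]
  have h4 : (Nat.card {p : Fin (M + 1) → α // C.Sol (M + 1) η p} : ℝ) * (2 ^ M * C.tg M) ≤
      2 ^ M * (K * C.c M) := by
    refine le_trans (mul_le_mul_of_nonneg_right ?_ (by positivity)) h2
    exact_mod_cast h1
  have h5 : (0 : ℝ) < 2 ^ M := by positivity
  have h6 : 2 ^ M * ((Nat.card {p : Fin (M + 1) → α // C.Sol (M + 1) η p} : ℝ) * C.tg M) ≤
      2 ^ M * (C.c M * K) := by
    calc _ = (Nat.card {p : Fin (M + 1) → α // C.Sol (M + 1) η p} : ℝ) * (2 ^ M * C.tg M) := by ring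
      _ ≤ 2 ^ M * (K * C.c M) := h4
      _ = _ := by ring
  exact le_of_mul_le_mul_left h6 h5

open Classical in
/-- The product of the sizes of the targets. -/
noncomputable def BB (M : ℕ) : ℕ :=
  ∏ q ∈ (Finset.range M).filter C.NP,
    Nat.card (C.F q) ^ Nat.card {i // C.top i < M ∧ (C.ns ≤ q ∨ C.ns ≤ C.top i)}

omit [Finite V] in
theorem BB_succ (M : ℕ) (hnM : C.ns ≤ M) : C.BB (M + 1) = C.BB M * C.tg M := by
  classical
  have := Fintype.ofFinite I
  unfold BB tg
  by_cases hNP : C.NP M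
  · have h1 : ∀ q, Nat.card {i // C.top i < M + 1 ∧ (C.ns ≤ q ∨ C.ns ≤ C.top i)} =
        Nat.card {i // C.top i < M ∧ (C.ns ≤ q ∨ C.ns ≤ C.top i)} := by
      intro q
      refine Nat.card_congr (Equiv.subtypeEquivRight fun i => ?_)
      have := hNP i
      constructor
      · rintro ⟨h1, h2⟩
        exact ⟨by omega, h2⟩
      · rintro ⟨h1, h2⟩
        exact ⟨by omega, h2⟩
    have h2 : Nat.card {i // C.top i < M ∧ (C.ns ≤ M ∨ C.ns ≤ C.top i)} =
        Nat.card {i // C.top i < M} := by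
      refine Nat.card_congr (Equiv.subtypeEquivRight fun i => ?_)
      exact ⟨fun h => h.1, fun h => ⟨h, Or.inl hnM⟩⟩
    rw [if_pos hNP, Finset.range_add_one, Finset.filter_insert, if_pos hNP,
      Finset.prod_insert (by simp), h1, h2, mul_comm]
    congr 1
    exact Finset.prod_congr rfl fun q _ => by rw [h1]
  · have h1 : ∀ q, Nat.card {i // C.top i < M + 1 ∧ (C.ns ≤ q ∨ C.ns ≤ C.top i)} =
        Nat.card {i // C.top i < M ∧ (C.ns ≤ q ∨ C.ns ≤ C.top i)} +
          Nat.card {i // C.top i = M} := by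
      intro q
      rw [← Nat.card_sum]
      refine Nat.card_congr ?_
      refine (Equiv.subtypeEquivRight
        (q := fun i => (C.top i < M ∧ (C.ns ≤ q ∨ C.ns ≤ C.top i)) ∨ C.top i = M)
        fun i => ?_).trans ?_
      · constructor
        · rintro ⟨h1, h2⟩
          rcases Nat.lt_succ_iff_lt_or_eq.1 h1 with h3 | h3
          · exact Or.inl ⟨h3, h2⟩
          · exact Or.inr h3
        · rintro (⟨h1, h2⟩ | h1)
          · exact ⟨by omega, h2⟩
          · exact ⟨by omega, Or.inr (by omega)⟩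
      exact subtypeOrEquiv _ _ (by
        rw [Pi.disjoint_iff]
        intro i
        simp only [Prop.disjoint_iff]
        omega)
    rw [if_neg hNP, Finset.range_add_one, Finset.filter_insert, if_neg hNP,
      ← Finset.prod_pow, ← Finset.prod_mul_distrib]
    exact Finset.prod_congr rfl fun q _ => by rw [h1, pow_add]

omit [Finite V] [Finite I] in
theorem card_base (η : ℕ → ZMod 2) :
    (Nat.card {p : Fin C.ns → α // C.Sol C.ns η p} : ℝ) * C.BB C.ns ≤ 1 := by
  classical
  have h1 : C.BB C.ns = 1 := by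
    unfold BB
    refine Finset.prod_eq_one fun q hq => ?_
    have h0 : Nat.card {i // C.top i < C.ns ∧ (C.ns ≤ q ∨ C.ns ≤ C.top i)} = 0 := by
      rw [Nat.card_eq_zero]
      left
      refine ⟨fun i => ?_⟩
      have h2 := Finset.mem_range.1 (Finset.mem_filter.1 hq).1
      have h3 := i.2
      omega
    rw [h0, pow_zero]
  rw [h1, Nat.cast_one, mul_one]
  have hf : ∀ j : Fin C.ns, Finite (C.X j) := fun j => (C.hX j).to_subtype
  have h2 : Nat.card {p : Fin C.ns → α // C.Sol C.ns η p} ≤ Nat.card ((j : Fin C.ns) → C.X j) := by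
    refine Nat.card_le_card_of_injective (fun p : {p : Fin C.ns → α // C.Sol C.ns η p} =>
      (fun j => ⟨p.1 j, p.2.1 j⟩ : (j : Fin C.ns) → C.X j)) ?_
    intro p p' h
    apply Subtype.ext
    funext j
    exact congrArg Subtype.val (congrFun h j)
  rw [Nat.card_pi] at h2
  have h3 : ∏ j : Fin C.ns, Nat.card (C.X j) ≤ 1 :=
    Finset.prod_le_one' fun j _ => C.small j j.2
  exact_mod_cast h2.trans h3

/-- **Main counting theorem.** -/
theorem count_main (M : ℕ) (hM : C.ns ≤ M) (η : ℕ → ZMod 2) :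
    (Nat.card {p : Fin M → α // C.Sol M η p} : ℝ) * C.BB M ≤ ∏ j ∈ Finset.Ico C.ns M, C.c j := by
  classical
  have hB : ∀ M, 0 < C.BB M := by
    intro M
    unfold BB
    exact Finset.prod_pos fun q _ => pow_pos Nat.card_pos _
  have key : ∀ M, C.ns ≤ M → ∀ η : ℕ → ZMod 2,
      (Nat.card {p : Fin M → α // C.Sol M η p} : ℝ) ≤
        (∏ j ∈ Finset.Ico C.ns M, C.c j) / C.BB M := by
    intro M hM
    induction M, hM using Nat.le_induction with
    | base =>
      intro η
      rw [Finset.Ico_self, Finset.prod_empty, le_div_iff₀ (by exact_mod_cast hB _)]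
      exact C.card_base η
    | succ M hM ih =>
      intro η
      have h1 := C.count_step M hM _ ih η
      have h2 : (0 : ℝ) < C.BB M := by exact_mod_cast hB _
      have h3 : (0 : ℝ) < C.BB (M + 1) := by exact_mod_cast hB _
      rw [le_div_iff₀ h3, C.BB_succ M hM, Nat.cast_mul, Finset.prod_Ico_succ_top hM]
      rw [mul_div_assoc'] at h1
      rw [le_div_iff₀ h2] at h1
      calc _ = (Nat.card {p : Fin (M + 1) → α // C.Sol (M + 1) η p} : ℝ) * C.tg M * C.BB M := by
            ring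
        _ ≤ _ := h1
        _ = _ := by ring
  have h2 : (0 : ℝ) < C.BB M := by exact_mod_cast hB _
  exact (le_div_iff₀ h2).1 (key M hM η)

end CG

end Pool.Agent.SmNH.J
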