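import Pool.Agent.Lib.SmNH.J.Tr
import Pool.Agent.Lib.SmN.J.Gr

/-!
HEIGHTS over SMITH-U, block J+: the grid of `Ds`, `T`: the positions of odd degree.
-/

set_option autoImplicit false

open Module Finset

namespace Pool.Agent.SmNH.J

open Pool.Agent.SmN Pool.Agent.SmN.J

variable {G V V1 Pl : Type} [Group G] [AddCommGroup V] [DistribMulAction G V]
  [AddCommGroup V1] [Module (ZMod 2) V1] {S : Sys G V V1 Pl} {X : PSys} {cd : CData S X}

/-- The large positions of odd degree. -/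
def gO {n : ℕ} (g : Grid cd n) : Finset (Fin g.M) :=
  Finset.univ.filter fun j => g.ns ≤ j ∧ Odd (g.dd j)

variable {Geo : Subgroup G} {fr : G} {q a C : ℕ} {N1 : Subgroup G}

theorem gw_mono {V Th α Z : Type} [AddCommGroup V] [Module (ZMod 2) V] [AddCommGroup Z]
    [Module (ZMod 2) Z] {G : GD V Th α Z} [Fintype Th] {A A' : Finset (Fin G.M)} {sp : Th → Prop}
    {K : Submodule (ZMod 2) Z} {κ δ : ℝ} (h : G.GW A sp K κ δ) (hA : A' ⊆ A) :
    G.GW A' sp K κ δ :=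
  ⟨h.one, fun j hj => h.ns_le j (hA hj), h.sp_top, h.κ0, h.κ1, h.δ0, h.tot,
    fun j hj => h.spl j (hA hj), fun j hj => h.zr j (hA hj)⟩

open Classical in
theorem gwO (H : Hyp cd Geo fr q a C N1) [Fintype cd.Kf] {n : ℕ} (g : Grid cd n) {δ : ℝ}
    (hδ : 0 ≤ δ) (hsm : Sm cd q a C N1 g δ) (hfr : fr ∈ S.GN) :
    (gd H g).GW (gO g) (spK cd) (Kb cd) (1 / (2 * (cd.R.card * N1.index))) δ := by
  refine gw_mono (gw H g hδ hsm (m0 := 1) (by rw [pow_one]; exact hfr)) fun j hj => ?_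
  exact Finset.mem_filter.2 ⟨Finset.mem_univ _, (Finset.mem_filter.1 hj).2.1, one_dvd _⟩

theorem card_gO_grd (r0 : {g : G // g ∈ cd.R}) (Ds : Finset X.Pr)
    (T : Finset ℕ) (n : ℕ) (hDT : ∀ P ∈ Ds, ∀ t ∈ T, X.deg P ≠ t) (hT : ∀ t ∈ T, 1 ≤ t)
    (hn : X.degS Ds + ∑ t ∈ T, t ≤ n) :
    (T.filter fun t => Odd t).card ≤ (gO (grd cd r0 Ds T n hDT hT hn)).card := by
  classical
  let f : {t // t ∈ T.filter fun t => Odd t} → Fin (Ds.card + T.card) := fun t =>
    (sg Ds T).symm (Sum.inr ⟨t.1, (Finset.mem_filter.1 t.2).1⟩)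
  have hf : Function.Injective f := by
    intro t t' h
    have h1 := Sum.inr_injective ((sg Ds T).symm.injective h)
    exact Subtype.ext (congrArg (fun s : {t // t ∈ T} => (s : ℕ)) h1)
  have hmem : ∀ t, f t ∈ gO (grd cd r0 Ds T n hDT hT hn) := by
    intro t
    have h1 : sg Ds T (f t) = Sum.inr ⟨t.1, (Finset.mem_filter.1 t.2).1⟩ :=
      Equiv.apply_symm_apply _ _
    refine Finset.mem_filter.2 ⟨Finset.mem_univ _, ?_, ?_⟩
    · change Ds.card ≤ (f t : ℕ)
      by_contra hlt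
      obtain ⟨P, hP⟩ := sg_small Ds T (f t) (not_le.1 hlt)
      rw [h1] at hP
      exact absurd hP Sum.inr_ne_inl
    · change Odd (if h : (f t : ℕ) < Ds.card + T.card then DJ (sg Ds T ⟨f t, h⟩) else 0)
      rw [dif_pos (f t).2]
      change Odd (DJ (sg Ds T (f t)))
      rw [h1]
      exact (Finset.mem_filter.1 t.2).2
  have h2 := Finset.card_le_card_of_injOn (s := Finset.univ) (t := gO (grd cd r0 Ds T n hDT hT hn))
    f (fun t _ => hmem t) (fun t _ t' _ h => hf h)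
  rwa [Finset.card_univ, Fintype.card_coe] at h2

/-- The parities of the degrees. -/
def dpar {n : ℕ} (g : Grid cd n) (j : Fin g.M) : ZMod 2 := (g.dd j : ZMod 2)

theorem dpar_gO {n : ℕ} (g : Grid cd n) (j : Fin g.M) (hj : j ∈ gO g) : dpar g j = 1 :=
  ZMod.natCast_eq_one_iff_odd.2 (Finset.mem_filter.1 hj).2.2

theorem finite_MPts (hX : X.Ok q) (cd : CData S X) (T : Finset ℕ) : Finite (cd.MPts T) := by
  have : ∀ t : T, Finite (X.Of t.1) := fun t => hX.fin t.1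
  exact inferInstanceAs (Finite ((t : T) → X.Of t.1 × {g : G // g ∈ cd.R}))

/-- The points which are not typical. -/
theorem card_notTypHN [Nontrivial V1] (H : Hyp cd Geo fr q a C N1) (r0 : {g : G // g ∈ cd.R})
    (Ds : Finset X.Pr)
    (T : Finset ℕ) (n : ℕ) (hDT : ∀ P ∈ Ds, ∀ t ∈ T, X.deg P ≠ t) (hT : ∀ t ∈ T, 1 ≤ t)
    (hn : X.degS Ds + ∑ t ∈ T, t ≤ n) {R k N0 : ℕ} {ρ : ℝ}
    (hk : ρ * ((Ds.card + T.card : ℕ) : ℝ) ≤ k) (hρ : 0 < ρ * ((Ds.card + T.card : ℕ) : ℝ))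
    (hN0 : ∀ t ∈ T, N0 ≤ t) (hsml : ∀ P ∈ Ds, X.deg P < N0) :
    Nat.card {x : cd.MPts T // ¬ cd.TypHN (cd.vec r0 Ds x) R ρ N0} ≤
      Nat.card {x : cd.MPts T // ¬ cd.TypN (cd.vec r0 Ds x) R ρ N0} +
      Nat.card {p : Fin (grd cd r0 Ds T n hDT hT hn).M → cd.Mk //
        (∀ j : Fin (grd cd r0 Ds T n hDT hT hn).M, p j ∈ (grd cd r0 Ds T n hDT hT hn).Xs j) ∧
        ¬ TypH (gd H (grd cd r0 Ds T n hDT hT hn)) (gO (grd cd r0 Ds T n hDT hT hn)) (spK cd)
          (dpar (grd cd r0 Ds T n hDT hT hn)) R k p} := by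
  classical
  set g := grd cd r0 Ds T n hDT hT hn with hg
  have hfM := finite_MPts H.hX cd T
  have hXs : ∀ j : Fin g.M, g.Xs j = YJ cd r0 (sg Ds T j) := by
    intro j
    change (if h : (j : ℕ) < Ds.card + T.card then YJ cd r0 (sg Ds T ⟨j, h⟩) else ∅) = _
    have hj : (j : ℕ) < Ds.card + T.card := j.2
    rw [dif_pos hj]
    rfl
  have hdd : ∀ j : Fin g.M, g.dd j = DJ (sg Ds T j) := by
    intro j
    change (if h : (j : ℕ) < Ds.card + T.card then DJ (sg Ds T ⟨j, h⟩) else 0) = _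
    have hj : (j : ℕ) < Ds.card + T.card := j.2
    rw [dif_pos hj]
    rfl
  have hmem : ∀ (x : cd.MPts T) (j : Fin g.M), cd.vec r0 Ds x (sg Ds T j) ∈ g.Xs j := by
    intro x j
    rw [hXs]
    rcases sg Ds T j with P | t
    · rfl
    · exact (x t).1.2
  have hfin : Finite {p : Fin g.M → cd.Mk // (∀ j : Fin g.M, p j ∈ g.Xs j) ∧
      ¬ TypH (gd H g) (gO g) (spK cd) (dpar g) R k p} :=
    GD.finite_P (G := gd H g) _ fun p hp => hp.1
  have hcardJ : Nat.card (CData.JG Ds T) = Ds.card + T.card := by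
    rw [Nat.card_eq_fintype_card, Fintype.card_sum, Fintype.card_coe, Fintype.card_coe]
  have hdeg : ∀ (x : cd.MPts T) (j : Fin g.M),
      X.deg (cd.vec r0 Ds x (sg Ds T j)).1 = g.dd j := by
    intro x j
    have h1 := hmem x j
    rw [hXs] at h1
    rw [hdd]
    exact deg_YJ _ h1
  have key : ∀ x : cd.MPts T, cd.TypN (cd.vec r0 Ds x) R ρ N0 →
      TypH (gd H g) (gO g) (spK cd) (dpar g) R k (fun j => cd.vec r0 Ds x (sg Ds T j)) →
      cd.TypHN (cd.vec r0 Ds x) R ρ N0 := by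
    intro x h1 h2
    refine typHN_of H g (sg Ds T) (cd.vec r0 Ds x) (hmem x) (dpar g) (fun j => ?_) (A := gO g)
      (k := k) ?_ ?_ ?_ ?_ h1 h2
    · exact congrArg (fun m : ℕ => (m : ZMod 2)) (hdeg x j)
    · rw [hcardJ]
      exact hk
    · rw [hcardJ]
      exact hρ
    · intro j hj
      have h3 : Ds.card ≤ (j : ℕ) := (Finset.mem_filter.1 hj).2.1
      have h4 : ∀ j : Fin (Ds.card + T.card), Ds.card ≤ (j : ℕ) →
          N0 ≤ X.deg (cd.vec r0 Ds x (sg Ds T j)).1 := by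
        intro j h1
        obtain ⟨t, ht⟩ := sg_large Ds T j h1
        rw [ht]
        change N0 ≤ X.deg ((x t).1.1)
        rw [(x t).1.2]
        exact hN0 t.1 t.2
      exact h4 j h3
    · intro j hj
      change Ds.card ≤ (j : ℕ)
      by_contra hlt
      have h4 : ∀ j : Fin (Ds.card + T.card), (j : ℕ) < Ds.card →
          X.deg (cd.vec r0 Ds x (sg Ds T j)).1 < N0 := by
        intro j h1
        obtain ⟨P, hP⟩ := sg_small Ds T j h1
        rw [hP]
        exact hsml P.1 P.2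
      exact absurd (h4 j (not_le.1 hlt)) (not_lt.2 hj)
  have h1 : Nat.card {x : cd.MPts T // ¬ cd.TypHN (cd.vec r0 Ds x) R ρ N0} ≤
      Nat.card ({x : cd.MPts T // ¬ cd.TypN (cd.vec r0 Ds x) R ρ N0} ⊕
        {p : Fin g.M → cd.Mk // (∀ j : Fin g.M, p j ∈ g.Xs j) ∧
      ¬ TypH (gd H g) (gO g) (spK cd) (dpar g) R k p}) := by
    refine Nat.card_le_card_of_injective (fun x : {x : cd.MPts T //
      ¬ cd.TypHN (cd.vec r0 Ds x) R ρ N0} =>
      if hx : cd.TypN (cd.vec r0 Ds x.1) R ρ N0 then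
        (Sum.inr ⟨fun j => cd.vec r0 Ds x.1 (sg Ds T j), hmem x.1,
          fun h2 => x.2 (key x.1 hx h2)⟩ :
          {x : cd.MPts T // ¬ cd.TypN (cd.vec r0 Ds x) R ρ N0} ⊕
        {p : Fin g.M → cd.Mk // (∀ j : Fin g.M, p j ∈ g.Xs j) ∧
        ¬ TypH (gd H g) (gO g) (spK cd) (dpar g) R k p})
      else Sum.inl ⟨x.1, hx⟩) ?_
    intro x y h
    dsimp only at h
    by_cases hx : cd.TypN (cd.vec r0 Ds x.1) R ρ N0
    · by_cases hy : cd.TypN (cd.vec r0 Ds y.1) R ρ N0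
      · rw [dif_pos hx, dif_pos hy] at h
        have h1 : (fun j : Fin g.M => cd.vec r0 Ds x.1 (sg Ds T j)) =
            fun j : Fin g.M => cd.vec r0 Ds y.1 (sg Ds T j) :=
          congrArg Subtype.val (Sum.inr_injective h)
        apply Subtype.ext
        funext t
        have h2 := congrFun h1 ((sg Ds T).symm (Sum.inr t))
        rw [Equiv.apply_symm_apply] at h2
        have h3 : ((x.1 t).1.1, (x.1 t).2) = ((y.1 t).1.1, (y.1 t).2) := h2
        rw [Prod.mk.injEq] at h3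
        exact Prod.ext (Subtype.ext h3.1) h3.2
      · rw [dif_pos hx, dif_neg hy] at h
        exact absurd h Sum.inr_ne_inl
    · by_cases hy : cd.TypN (cd.vec r0 Ds y.1) R ρ N0
      · rw [dif_neg hx, dif_pos hy] at h
        exact absurd h Sum.inl_ne_inr
      · rw [dif_neg hx, dif_neg hy] at h
        have h5 := Sum.inl_injective h
        rw [Subtype.mk.injEq] at h5
        exact Subtype.ext h5
  rwa [Nat.card_sum] at h1

end Pool.Agent.SmNH.J
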