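import Pool.Agent.Lib.SmNH.J.Typ
import Pool.Agent.Lib.SmN.J.Tr
import Pool.Agent.Lib.SmN.G.Kum
import Pool.Agent.Lib.SmNH.StmtsJ

/-!
HEIGHTS over SMITH-U, block J+: the explicit form of the inhomogeneous Selmer condition.
-/

set_option autoImplicit false

open Module Finset

namespace Pool.Agent.SmNH.J

open Pool.Agent.SmN Pool.Agent.SmN.J

variable {G V V1 Pl : Type} [Group G] [AddCommGroup V] [DistribMulAction G V]
  [AddCommGroup V1] [Module (ZMod 2) V1] {S : Sys G V V1 Pl} {X : PSys} {cd : CData S X}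

/-- The explicit inhomogeneous condition. -/
theorem inh_eq (h : S.Ok) (hc : cd.Ok) {J : Type} [Fintype J] {p : J → cd.Mk} (hp : cd.PVecN p)
    {w c : cd.CodeN J} (hwv : cd.ValidN p w) (hcv : cd.ValidN p c) (j : J)
    (hinh : cd.InhN p w c j) {v : V1} (hv : v ∈ Fix S (cd.phx (p j))) :
    S.e v (cd.homN p w (cd.phx (p j))) + (X.deg (p j).1 : ZMod 2) * S.e v (c.2 j) =
      tau h (cd.phx (p j)) v (w.2 j) + cd.chiN p (cd.phx (p j)) * S.e v (w.2 j) := by
  obtain ⟨Q, hQ2, h1, h2⟩ := hinh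
  have hchi := CData.chiN_hom h hc p
  have hcoc := CData.homN_coc h hc hwv
  have hcr : cd.homN p c (S.sg (cd.pl (p j).1)) = S.ac (p j).2.1⁻¹ (c.2 j) :=
    CData.homN_ram hc hp hcv j
  set r := (p j).2.1 with hr
  set s0 := S.phi (cd.pl (p j).1) with hs0
  have hphx : cd.phx (p j) = r * s0 * r⁻¹ := rfl
  have hsg : cd.chiN p (S.sg (cd.pl (p j).1)) = 1 := CData.chiN_ram hc hp j
  have h3 : (S.loc (cd.pl (p j).1) (cd.homN p w)).1 = S.ac r⁻¹ (w.2 j) :=
    CData.homN_ram hc hp hwv j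
  have h4 : (2 : ℕ) • Q = S.iota (S.ac r⁻¹ (w.2 j)) := by
    rw [Sys.dl_sg_one h (hc.pl_good _) hsg, Prod.fst_sub, sub_zero, h3] at h1
    rw [← neg_eq_iff_eq_neg.2 h1.symm, Sys.neg_iota]
  have h5 : (2 : ℕ) • (r • Q) = S.iota (w.2 j) := by
    rw [smul_comm, h4, h.iota_ac, Sys.ac_inv_cancel]
  have hy : w.2 j ∈ Fix S (cd.phx (p j)) := hwv j
  -- the value of the cocycle
  have h6 : S.e v (cd.homN p w (cd.phx (p j))) = S.e v (S.ac r (cd.homN p w s0)) := by
    rw [hphx, Sys.coc_conj hcoc.2, map_add, map_add]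
    have h7 : S.ac r (S.ac s0 (S.ac r⁻¹ (cd.homN p w r)) - S.ac r⁻¹ (cd.homN p w r)) =
        S.ac (cd.phx (p j)) (cd.homN p w r) - cd.homN p w r := by
      rw [hphx, Sys.ac_mul, Sys.ac_mul, map_sub, Sys.ac_inv_cancel]
    rw [h7, e_sub h hv, add_zero]
  -- the value of the character
  have h8 : cd.chiN p (cd.phx (p j)) = cd.chiN p s0 := by
    have h9 : cd.chiN p r + cd.chiN p r⁻¹ = 0 := by
      rw [← hchi.2, mul_inv_cancel]
      have := hchi.2 1 1
      rw [one_mul] at this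
      exact left_eq_add.mp this
    rw [hphx, hchi.2, hchi.2, add_right_comm, h9, zero_add]
  -- the right hand side
  set dg : ZMod 2 := (X.deg (p j).1 : ZMod 2) with hdg
  set y0 : V1 := cd.homN p w s0 - dg • cd.homN p c (S.sg (cd.pl (p j).1)) with hy0
  have h8' : S.e v (S.ac r (cd.homN p w s0)) + dg * S.e v (c.2 j) = S.e v (S.ac r y0) := by
    rw [hy0, hcr, map_sub, map_smul, Sys.ac_inv_cancel, map_sub, map_smul, smul_eq_mul]
    generalize S.e v (S.ac r (cd.homN p w s0)) = x1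
    generalize dg * S.e v (c.2 j) = x2
    revert x1 x2
    decide
  rw [h6, h8, h8']
  -- the Kummer point
  have h10 : S.iota (S.ac r y0) = r • dl (cd.chiN p) Q s0 := by
    rw [← h.iota_ac]
    exact congrArg (fun t => r • t) h2.symm
  have h11 : r • (s0 • Q) = cd.phx (p j) • (r • Q) := by
    rw [hphx, smul_smul, smul_smul]
    congr 1
    group
  have htau := tau_apply h hv hy h5
  have h2s := two_sub_smul h hy h5
  have h01 : ∀ a : ZMod 2, a = 0 ∨ a = 1 := by decide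
  rcases h01 (cd.chiN p s0) with h0 | h0
  · have h12 : S.iota (S.ac r y0) = cd.phx (p j) • (r • Q) - r • Q := by
      rw [h10, dl, tw, h0, sgn_zero, one_smul, smul_sub, h11]
    rw [h0, zero_mul, add_zero, htau, ← h12, Sys.un_iota h]
  · have h12 : S.iota (S.ac r y0) =
        (cd.phx (p j) • (r • Q) - r • Q) + S.iota (w.2 j) := by
      have h13 : sgn (1 : ZMod 2) = -1 := rfl
      rw [h10, dl, tw, h0, h13, neg_smul, one_smul, smul_sub, smul_neg, h11]
      have h14 := Sys.neg_of_two h2s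
      have h15 : S.iota (w.2 j) = - S.iota (w.2 j) := (Sys.neg_iota S _).symm
      rw [h15, ← h5, two_nsmul, ← h14]
      abel
    have h16 : S.ac r y0 =
        S.un (cd.phx (p j) • (r • Q) - r • Q) + w.2 j := by
      rw [← Sys.un_iota h (S.ac r y0), h12, Sys.un_add h h2s (Sys.two_iota S _),
        Sys.un_iota h]
    rw [h0, one_mul, htau, h16, map_add]

variable {Geo : Subgroup G} {fr : G} {q a C : ℕ} {N1 : Subgroup G}

theorem pvec_grid {n : ℕ} (g : Grid cd n) (p : Fin g.M → cd.Mk)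
    (hp : ∀ j : Fin g.M, p j ∈ g.Xs j) : cd.PVecN p := by
  intro i i' h
  by_contra hne
  rcases lt_or_gt_of_ne hne with h1 | h1
  · exact g.ne i i' h1 _ (hp i) _ (hp i') h
  · exact g.ne i' i h1 _ (hp i') _ (hp i) h.symm

/-- The inhomogeneous equations. -/
theorem gd_inh (H : Hyp cd Geo fr q a C N1) {n : ℕ} (g : Grid cd n)
    (p : Fin g.M → cd.Mk) (hp : ∀ j : Fin g.M, p j ∈ g.Xs j) (w c : cd.CodeN (Fin g.M))
    (hwv : cd.ValidN p w) (hcv : cd.ValidN p c) (j : Fin g.M) (hinh : cd.InhN p w c j)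
    (v : V1) (hv : v ∈ FK cd (cd.kf (cd.phx (p j)))) :
    (gd H g).equ p w j v = (X.deg (p j).1 : ZMod 2) * S.e v (c.2 j) := by
  have hpv := pvec_grid g p hp
  rw [FK_kf H.hc] at hv
  have h1 := inh_eq H.hS H.hc hpv hwv hcv j hinh hv
  refine (gd_equ H g p w j v).trans ?_
  have h2 : ∑ i : Fin g.M, (if i = j then 0 else mS H.hc (p i) (cd.phx (p j)) v (w.2 i) +
      cd.ch (p i).1 (cd.phx (p j)) * S.e v (w.2 j)) =
      ∑ i : Fin g.M, (mS H.hc (p i) (cd.phx (p j)) v (w.2 i) +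
      cd.ch (p i).1 (cd.phx (p j)) * S.e v (w.2 j)) +
      (mS H.hc (p j) (cd.phx (p j)) v (w.2 j) +
      cd.ch (p j).1 (cd.phx (p j)) * S.e v (w.2 j)) := by
    rw [← Finset.add_sum_erase _ _ (mem_univ j), if_pos rfl, zero_add,
      ← Finset.add_sum_erase _ (fun i => mS H.hc (p i) (cd.phx (p j)) v (w.2 i) +
      cd.ch (p i).1 (cd.phx (p j)) * S.e v (w.2 j)) (mem_univ j)]
    have h3 : ∀ x y : ZMod 2, y = x + y + x := by decide
    rw [Finset.sum_congr rfl fun i hi => if_neg (Finset.ne_of_mem_erase hi)]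
    exact h3 _ _
  have h4 : S.e v (cd.homN p w (cd.phx (p j))) = S.e v (cd.hb w.1 (cd.phx (p j))) +
      ∑ i : Fin g.M, mS H.hc (p i) (cd.phx (p j)) v (w.2 i) := by
    rw [CData.homN, map_add, map_sum]
    congr 1
    exact Finset.sum_congr rfl fun i _ => (mS_apply H.hc _ _ _ (hwv i)).symm
  have h5 : cd.chiN p (cd.phx (p j)) = cd.chi0 (cd.phx (p j)) +
      ∑ i, cd.ch (p i).1 (cd.phx (p j)) := rfl
  rw [h2, zzS_apply H.hS H.hc hv, Finset.sum_add_distrib, ← Finset.sum_mul]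
  rw [h4, h5] at h1
  simp only [sf, LinearMap.add_apply, LinearMap.smul_apply, smul_eq_mul]
  generalize (X.deg (p j).1 : ZMod 2) * S.e v (c.2 j) = x0 at h1 ⊢
  generalize S.e v (cd.hb w.1 (cd.phx (p j))) = x1 at h1 ⊢
  generalize ∑ i : Fin g.M, mS H.hc (p i) (cd.phx (p j)) v (w.2 i) = x2 at h1 ⊢
  generalize tau H.hS (cd.phx (p j)) v (w.2 j) = x3 at h1 ⊢
  generalize cd.chi0 (cd.phx (p j)) = x4 at h1 ⊢
  generalize ∑ i, cd.ch (p i).1 (cd.phx (p j)) = x5 at h1 ⊢
  generalize S.e v (w.2 j) = x6 at h1 ⊢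
  generalize mS H.hc (p j) (cd.phx (p j)) v (w.2 j) = x7 at h1 ⊢
  generalize cd.ch (p j).1 (cd.phx (p j)) = x8 at h1 ⊢
  revert h1
  revert x0 x1 x2 x3 x4 x5 x6 x7 x8
  decide

/-- Reindexing. -/
theorem reindexH {J J' : Type} [Fintype J] [Fintype J'] (σ : J' ≃ J) (p : J → cd.Mk)
    (w c : cd.CodeN J) (j : J') (hinh : cd.InhN p w c (σ j)) :
    cd.InhN (fun j => p (σ j)) ((w.1, fun j => w.2 (σ j)) : cd.CodeN J')
      ((c.1, fun j => c.2 (σ j)) : cd.CodeN J') j := by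
  have h1 : ∀ c : cd.CodeN J, cd.homN (fun j => p (σ j))
      ((c.1, fun j => c.2 (σ j)) : cd.CodeN J') = cd.homN p c := by
    intro c
    funext s
    rw [CData.homN, CData.homN]
    congr 1
    exact Equiv.sum_comp σ (fun j => cd.bex (p j) (c.2 j) s)
  have h2 : cd.chiN (fun j => p (σ j)) = cd.chiN p := by
    funext s
    rw [CData.chiN, CData.chiN]
    congr 1
    exact Equiv.sum_comp σ (fun j => cd.ch (p j).1 s)
  unfold CData.InhN
  rw [h1, h1, h2]
  exact hinh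

theorem selpN_sum (hc : cd.Ok) {J : Type} [Fintype J] {p : J → cd.Mk} {r : ℕ}
    (c : Fin r → cd.CodeN J) (hcS : ∀ i, c i ∈ cd.SelpN p) (α : Fin r → ZMod 2) :
    ∑ i, α i • c i ∈ cd.SelpN p := by
  have h0 : (0 : cd.CodeN J) ∈ cd.SelpN p := ⟨CData.valid_zero p, fun j => by
    rw [CData.homN_zero hc]
    exact (S.W (cd.chiN p) _).zero_mem⟩
  refine Finset.sum_induction (fun i => α i • c i) (fun x => x ∈ cd.SelpN p) ?_ h0 ?_
  · intro a b ha hb
    refine ⟨fun j => ?_, fun j => ?_⟩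
    · exact (Fix S (cd.phx (p j))).add_mem (ha.1 j) (hb.1 j)
    · rw [CData.homN_add hc ha.1 hb.1]
      exact (S.W (cd.chiN p) _).add_mem (ha.2 j) (hb.2 j)
  · intro i _
    have hz : ∀ x : ZMod 2, x = 0 ∨ x = 1 := by decide
    rcases hz (α i) with h1 | h1
    · rw [h1, zero_smul]
      exact h0
    · rw [h1, one_smul]
      exact hcS i

end Pool.Agent.SmNH.J
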