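import Pool.Agent.Lib.SmNH.J.Count
import Pool.Agent.Lib.SmN.J.Typ

/-!
HEIGHTS over SMITH-U, block J+: linear systems with a right hand side given by a matrix `B` and the
parities `d` of the degrees; the number of families of places for one family in echelon form.
-/

set_option autoImplicit false

open Module Finset

namespace Pool.Agent.SmNH.J

open Pool.Agent.SmN.J

variable {V Th α Z : Type} [AddCommGroup V] [Module (ZMod 2) V] [AddCommGroup Z]
  [Module (ZMod 2) Z] (G : GD V Th α Z)

/-- `equ` is linear in the code. -/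
def equL (p : Fin G.M → α) (q : Fin G.M) (v : V) : G.Cod →ₗ[ZMod 2] ZMod 2 where
  toFun c := G.equ p c q v
  map_add' := by
    intro a b
    unfold GD.equ
    have h1 : ∑ q' : Fin G.M, (if q' = q then 0 else
        G.m (p q) (p q') v ((a + b).2 q') + G.l (p q) (p q') * G.e v ((a + b).2 q)) =
        ∑ q' : Fin G.M, (if q' = q then 0 else
          G.m (p q) (p q') v (a.2 q') + G.l (p q) (p q') * G.e v (a.2 q)) +
        ∑ q' : Fin G.M, (if q' = q then 0 else
          G.m (p q) (p q') v (b.2 q') + G.l (p q) (p q') * G.e v (b.2 q)) := by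
      rw [← Finset.sum_add_distrib]
      refine Finset.sum_congr rfl fun q' _ => ?_
      split_ifs
      · rw [add_zero]
      · simp only [Prod.snd_add, Pi.add_apply, map_add]
        ring
    rw [h1]
    simp only [Prod.fst_add, Prod.snd_add, Pi.add_apply, map_add]
    ring
  map_smul' := by
    intro s a
    simp only [RingHom.id_apply, smul_eq_mul]
    unfold GD.equ
    rw [mul_add, mul_add, Finset.mul_sum]
    congr 1
    · simp
    · refine Finset.sum_congr rfl fun q' _ => ?_
      split_ifs
      · rw [mul_zero]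
      · simp only [Prod.smul_snd, Pi.smul_apply, map_smul, smul_eq_mul]
        ring

theorem equL_apply (p : Fin G.M → α) (q : Fin G.M) (v : V) (c : G.Cod) :
    equL G p q v c = G.equ p c q v := rfl

theorem equ_sum {I : Type} [Fintype I] (p : Fin G.M → α) (q : Fin G.M) (v : V) (a : I → ZMod 2)
    (W : I → G.Cod) : G.equ p (∑ i, a i • W i) q v = ∑ i, a i * G.equ p (W i) q v := by
  have h := map_sum (equL G p q v) (fun i => a i • W i) univ
  rw [equL_apply] at h
  rw [h]
  exact Finset.sum_congr rfl fun i _ => map_smul (equL G p q v) _ _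

variable {I : Type} [Fintype I]

/-- The systems. -/
def SysB (d : Fin G.M → ZMod 2) (B : I → I → ZMod 2) (p : Fin G.M → α) (W : I → G.Cod) : Prop :=
  (∀ i j, (W i).2 j ∈ G.F (G.ty (p j))) ∧ ∀ i q, ∀ v ∈ G.F (G.ty (p q)),
    G.equ p (W i) q v = d q * ∑ k, B i k * G.e v ((W k).2 q)

/-- The number of families of places for one family of codes in echelon form. -/
theorem fib_leB [Finite V] [Inhabited Th] (d : Fin G.M → ZMod 2) (B : I → I → ZMod 2)
    (top : I → Fin G.M) (t : Fin G.M → Th) (g : I → Z)
    (x : I → Fin G.M → V) (hxF : ∀ i j, x i j ∈ G.F (t j)) (hE : G.EchT top x) :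
    (Nat.card {p : Fin G.M → α // (∀ j : Fin G.M, p j ∈ G.X j) ∧ (∀ j, G.ty (p j) = t j) ∧
      SysB G d B p (fun i => (g i, x i))} : ℝ) *
      ∏ j, (Nat.card (G.F (t j)) : ℝ) ^ Fintype.card I ≤
      (∏ j : Fin G.M, G.wt j (t j)) * (Nat.card V : ℝ) ^ (Fintype.card I * Fintype.card I) := by
  classical
  let t' : ℕ → Th := fun j => if h : j < G.M then t ⟨j, h⟩ else default
  have ht' : ∀ j : Fin G.M, t' j = t j := fun j => by simp [t']
  let x' : I → ℕ → V := fun i j => if h : j < G.M then x i ⟨j, h⟩ else 0
  have hx' : ∀ i (j : Fin G.M), x' i j = x i j := fun i j => by simp [x']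
  let d' : ℕ → ZMod 2 := fun j => if h : j < G.M then d ⟨j, h⟩ else 0
  have hd' : ∀ j : Fin G.M, d' j = d j := fun j => by simp [d']
  let C : CD V α I :=
    { e := G.e
      F := fun j => G.F (t' j)
      X := fun j => {a | a ∈ G.X j ∧ G.ty a = t' j ∧ j < G.M}
      m := G.m
      l := G.l
      self := fun a v y => G.self a v y
      self0 := fun a v => map_zero _
      z := fun i j v => G.zz (t' j) v (g i) + d' j * ∑ k, B i k * G.e v (x' k j)
      R := fun i j => G.R (t' i) (t' j)
      R' := fun i j => G.R' (t' i) (t' j)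
      x := x'
      top := fun i => top i
      ns := G.ns
      c := fun j => G.c j (t' j)
      c0 := fun j => G.c0 _ _
      hX := fun j => (G.hX j).subset fun a ha => ha.1
      hx := fun i j => by
        by_cases h : j < G.M
        · have h1 := hxF i ⟨j, h⟩
          simp only [x', t', h, dif_pos]
          exact h1
        · simp only [x', h, dif_neg, not_false_iff]
          exact zero_mem _
      htop := hE.1
      hx0 := fun i j hij => by
        by_cases h : j < G.M
        · have h1 := hE.2.1 i ⟨j, h⟩ (Fin.lt_def.2 hij)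
          simp only [x', h, dif_pos]
          exact h1
        · simp only [x', h, dif_neg, not_false_iff]
      hind := fun s => by
        by_cases h : s < G.M
        · have h1 := hE.2.2 ⟨s, h⟩
          have h2 := h1.comp (fun i : {i // (top i : ℕ) = s} =>
            (⟨i.1, Fin.ext i.2⟩ : {i // top i = ⟨s, h⟩})) (by
              intro a b hab
              exact Subtype.ext (congrArg (fun t : {i // top i = ⟨s, h⟩} => (t : I)) hab))
          simpa [x', h, Function.comp_def] using h2
        · have : IsEmpty {i // (top i : ℕ) = s} := ⟨fun i => h (i.2 ▸ (top i.1).2)⟩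
          exact linearIndependent_empty_type
      recip := fun i j hij a ha b hb v hv y hy => by
        have h := G.recip i j hij a ha.1 b hb.1 v (by rw [ha.2.1]; exact hv) y
          (by rw [hb.2.1]; exact hy)
        rw [h, ha.2.1, hb.2.1]
      recip' := fun i j hij a ha b hb => by
        rw [G.recip' i j hij a ha.1 b hb.1, ha.2.1, hb.2.1]
      small := fun j hj => by
        have := (G.hX j).to_subtype
        refine le_trans ?_ (G.small j hj)
        exact Nat.card_mono (G.hX j) (fun a ha => ha.1)
      NI := fun j hj p hp u ε => by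
        by_cases h : j < G.M
        · have h1 := G.NI j hj h p (fun i => t' i) (fun i => ⟨(hp i).1, (hp i).2.1⟩) (t' j) u ε
          refine le_trans (le_of_eq ?_) h1
          congr 2
          refine Nat.card_congr (Equiv.subtypeEquivRight fun a => ?_)
          constructor
          · rintro ⟨⟨h2, h3, _⟩, h4⟩
            exact ⟨h2, h3, h4⟩
          · rintro ⟨h2, h3, h4⟩
            exact ⟨⟨h2, h3, h⟩, h4⟩
        · have h1 : IsEmpty {a : α // a ∈ {a | a ∈ G.X j ∧ G.ty a = t' j ∧ j < G.M} ∧
              ∀ i, (G.m a (p i)).domRestrict₁₂ (G.F (t' j)) (G.F (t' i)) = u i ∧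
              G.l a (p i) = ε i} := ⟨fun a => h a.2.1.2.2⟩
          rw [Nat.card_of_isEmpty, Nat.cast_zero, zero_mul]
          exact G.c0 _ _ }
  have hmain := C.count_main G.M G.hns 0
  -- the product of the targets
  have hBB : (∏ j : Fin G.M, (Nat.card (G.F (t j)) : ℝ) ^ Fintype.card I) ≤
      (C.BB G.M : ℝ) * (Nat.card V : ℝ) ^ (Fintype.card I * Fintype.card I) := by
    have h1 : Nat.card {i // C.top i < G.M} = Fintype.card I := by
      rw [← Nat.card_eq_fintype_card]
      exact Nat.card_congr (Equiv.subtypeUnivEquiv fun i => (top i).2)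
    have h2 : (C.BB G.M : ℝ) = ∏ q : Fin G.M, if C.NP q then
        (Nat.card (G.F (t q)) : ℝ) ^ Fintype.card I else 1 := by
      unfold CD.BB
      rw [h1, Nat.cast_prod, Finset.prod_filter,
        ← Fin.prod_univ_eq_prod_range (fun q => if C.NP q then
          ((Nat.card (C.F q) ^ Fintype.card I : ℕ) : ℝ) else 1)]
      refine Finset.prod_congr rfl fun q _ => ?_
      have h3 : C.F q = G.F (t q) := congrArg G.F (ht' q)
      rw [h3]
      push_cast
      rfl
    have h3 : (∏ j : Fin G.M, (Nat.card (G.F (t j)) : ℝ) ^ Fintype.card I) =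
        (∏ q : Fin G.M, if C.NP q then (Nat.card (G.F (t q)) : ℝ) ^ Fintype.card I else 1) *
        ∏ q : Fin G.M, if C.NP q then 1 else (Nat.card (G.F (t q)) : ℝ) ^ Fintype.card I := by
      rw [← Finset.prod_mul_distrib]
      refine Finset.prod_congr rfl fun q _ => ?_
      split_ifs <;> simp
    rw [h3, h2]
    refine mul_le_mul_of_nonneg_left ?_ (Finset.prod_nonneg fun q _ => by positivity)
    rw [← Finset.prod_filter_mul_prod_filter_not Finset.univ (fun q : Fin G.M => C.NP q)]
    have h4 : ∏ q ∈ Finset.univ.filter (fun q : Fin G.M => C.NP q),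
        (if C.NP q then (1 : ℝ) else (Nat.card (G.F (t q)) : ℝ) ^ Fintype.card I) = 1 := by
      refine Finset.prod_eq_one fun q hq => ?_
      rw [if_pos (Finset.mem_filter.1 hq).2]
    rw [h4, one_mul]
    have hV1 : (1 : ℝ) ≤ Nat.card V := by exact_mod_cast Nat.card_pos
    calc ∏ q ∈ Finset.univ.filter (fun q : Fin G.M => ¬ C.NP q),
          (if C.NP q then (1 : ℝ) else (Nat.card (G.F (t q)) : ℝ) ^ Fintype.card I) ≤
          ∏ _q ∈ Finset.univ.filter (fun q : Fin G.M => ¬ C.NP q),
            (Nat.card V : ℝ) ^ Fintype.card I := by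
          refine Finset.prod_le_prod (fun q _ => by positivity) fun q hq => ?_
          rw [if_neg (Finset.mem_filter.1 hq).2]
          refine pow_le_pow_left₀ (Nat.cast_nonneg _) ?_ _
          exact_mod_cast Nat.card_le_card_of_injective _ (Submodule.subtype_injective _)
      _ = ((Nat.card V : ℝ) ^ Fintype.card I) ^
            (Finset.univ.filter (fun q : Fin G.M => ¬ C.NP q)).card := Finset.prod_const _
      _ ≤ ((Nat.card V : ℝ) ^ Fintype.card I) ^ Fintype.card I := by
          refine pow_le_pow_right₀ (one_le_pow₀ hV1) ?_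
          have h5 : Finset.univ.filter (fun q : Fin G.M => ¬ C.NP q) ⊆ Finset.univ.image top := by
            intro q hq
            have h6 := (Finset.mem_filter.1 hq).2
            unfold CD.NP at h6
            push Not at h6
            obtain ⟨i, hi⟩ := h6
            exact Finset.mem_image.2 ⟨i, Finset.mem_univ _, Fin.ext hi⟩
          exact (Finset.card_le_card h5).trans Finset.card_image_le
      _ = _ := by rw [← pow_mul]
  -- the number of families
  have hle : Nat.card {p : Fin G.M → α // (∀ j : Fin G.M, p j ∈ G.X j) ∧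
      (∀ j, G.ty (p j) = t j) ∧ SysB G d B p (fun i => (g i, x i))} ≤
      Nat.card {p : Fin G.M → α // C.Sol G.M 0 p} := by
    have hf := C.finite_pi G.M (C.Sol G.M 0) fun p hp => hp.1
    have hsol : ∀ p : Fin G.M → α, (∀ j : Fin G.M, p j ∈ G.X j) → (∀ j, G.ty (p j) = t j) →
        SysB G d B p (fun i => (g i, x i)) → C.Sol G.M 0 p := by
      intro p h1 h2 h3
      refine ⟨fun j => ⟨h1 j, (h2 j).trans (ht' j).symm, j.2⟩, fun i _ q _ v hv => ?_⟩
      have hv' : v ∈ G.F (G.ty (p q)) := by
        rw [h2 q, ← ht' q]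
        exact hv
      have h4 := h3.2 i q v hv'
      change eqn G.e G.m G.l (fun a v y => G.self a v y)
        (fun i j v => G.zz (t' j) v (g i) + d' j * ∑ k, B i k * G.e v (x' k j)) x' 0
        p i q v = 0
      unfold GD.equ at h4
      unfold eqn
      simp only [hx', ht', hd', h2, Pi.zero_apply, zero_mul, add_zero] at h4 ⊢
      generalize d q * ∑ k, B i k * G.e v (x k q) = y0 at h4 ⊢
      generalize ∑ q' : Fin G.M, (if q' = q then 0 else
        G.m (p q) (p q') v (x i q') + G.l (p q) (p q') * G.e v (x i q)) = y1 at h4 ⊢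
      generalize G.zz (t q) v (g i) = y2 at h4 ⊢
      generalize G.self (p q) v (x i q) = y3 at h4 ⊢
      revert h4
      revert y0 y1 y2 y3
      decide
    exact Nat.card_le_card_of_injective
      (fun p : {p : Fin G.M → α // (∀ j : Fin G.M, p j ∈ G.X j) ∧
        (∀ j, G.ty (p j) = t j) ∧ SysB G d B p (fun i => (g i, x i))} =>
        (⟨p.1, hsol p.1 p.2.1 p.2.2.1 p.2.2.2⟩ : {p : Fin G.M → α // C.Sol G.M 0 p})) (by
          intro p p' h
          exact Subtype.ext (congrArg (fun s : {p : Fin G.M → α // C.Sol G.M 0 p} => s.1) h))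
  by_cases hemp : IsEmpty {p : Fin G.M → α // (∀ j : Fin G.M, p j ∈ G.X j) ∧
      (∀ j, G.ty (p j) = t j) ∧ SysB G d B p (fun i => (g i, x i))}
  · rw [Nat.card_of_isEmpty, Nat.cast_zero, zero_mul]
    exact mul_nonneg (Finset.prod_nonneg fun j _ => G.wt_nonneg _ _) (by positivity)
  · rw [not_isEmpty_iff] at hemp
    obtain ⟨⟨p0, hp0, hp0', _⟩⟩ := hemp
    have hw : ∏ j ∈ Finset.Ico G.ns G.M, C.c j = ∏ j : Fin G.M, G.wt j (t j) := by
      have h1 : ∏ j : Fin G.M, G.wt j (t j) =
          ∏ j ∈ Finset.range G.M, (if j < G.ns then 1 else C.c j) := by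
        rw [← Fin.prod_univ_eq_prod_range (fun j => if j < G.ns then (1 : ℝ) else C.c j)]
        refine Finset.prod_congr rfl fun j _ => ?_
        unfold GD.wt
        by_cases hj : (j : ℕ) < G.ns
        · rw [if_pos hj, if_pos hj, if_pos ⟨p0 j, hp0 j, hp0' j⟩]
        · rw [if_neg hj, if_neg hj]
          exact congrArg (G.c j) (ht' j).symm
      rw [h1, Finset.range_eq_Ico, ← Finset.prod_Ico_consecutive _ (Nat.zero_le G.ns) G.hns]
      have h2 : ∏ j ∈ Finset.Ico 0 G.ns, (if j < G.ns then (1 : ℝ) else C.c j) = 1 :=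
        Finset.prod_eq_one fun j hj => if_pos (Finset.mem_Ico.1 hj).2
      rw [h2, one_mul]
      refine Finset.prod_congr rfl fun j hj => ?_
      rw [if_neg (not_lt.2 (Finset.mem_Ico.1 hj).1)]
    rw [hw] at hmain
    have hN : (Nat.card {p : Fin G.M → α // (∀ j : Fin G.M, p j ∈ G.X j) ∧
      (∀ j, G.ty (p j) = t j) ∧ SysB G d B p (fun i => (g i, x i))} : ℝ) ≤
        Nat.card {p : Fin G.M → α // C.Sol G.M 0 p} := by exact_mod_cast hle
    calc _ ≤ (Nat.card {p : Fin G.M → α // C.Sol G.M 0 p} : ℝ) *
          ((C.BB G.M : ℝ) * (Nat.card V : ℝ) ^ (Fintype.card I * Fintype.card I)) :=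
          mul_le_mul hN hBB (Finset.prod_nonneg fun j _ => by positivity) (Nat.cast_nonneg _)
      _ = (Nat.card {p : Fin G.M → α // C.Sol G.M 0 p} : ℝ) * C.BB G.M *
          (Nat.card V : ℝ) ^ (Fintype.card I * Fintype.card I) := by ring
      _ ≤ _ := mul_le_mul_of_nonneg_right hmain (by positivity)

end Pool.Agent.SmNH.J
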