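import Pool.Agent.Lib.SmNH.J.Mom

/-!
HEIGHTS over SMITH-U, block J+: the moment theorem for linear systems with a right hand side.
-/

set_option autoImplicit false

open Module Finset

namespace Pool.Agent.SmNH.J

open Pool.Agent.SmN.J

variable {V Th α Z : Type} [AddCommGroup V] [Module (ZMod 2) V] [AddCommGroup Z]
  [Module (ZMod 2) Z] (G : GD V Th α Z) {I : Type} [Fintype I]

/-- The families counted by the moment theorem. -/
def FamB (d : Fin G.M → ZMod 2) (B : I → I → ZMod 2)
    (Bad : (Fin G.M → Th) → (I → Fin G.M → V) → Prop) (pW : (Fin G.M → α) × (I → G.Cod)) :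
    Prop :=
  (∀ j : Fin G.M, pW.1 j ∈ G.X j) ∧ SysB G d B pW.1 pW.2 ∧
    G.IndL (fun i => (pW.2 i).2) ∧ Bad (fun j => G.ty (pW.1 j)) (fun i => (pW.2 i).2)

/-- The same with echelon form instead of independence. -/
def FamEB (d : Fin G.M → ZMod 2) (B : I → I → ZMod 2)
    (Bad : (Fin G.M → Th) → (I → Fin G.M → V) → Prop) (pW : (Fin G.M → α) × (I → G.Cod)) :
    Prop :=
  (∀ j : Fin G.M, pW.1 j ∈ G.X j) ∧ SysB G d B pW.1 pW.2 ∧
    (∃ top, G.EchT top (fun i => (pW.2 i).2)) ∧
    Bad (fun j => G.ty (pW.1 j)) (fun i => (pW.2 i).2)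

theorem snd_sum (b : I → ZMod 2) (W : I → G.Cod) :
    (∑ k, b k • W k).2 = fun j => ∑ k, b k • (W k).2 j := by
  funext j
  rw [Prod.snd_sum, Finset.sum_apply]
  rfl

open Classical in
theorem SysB.trans {G : GD V Th α Z} {d : Fin G.M → ZMod 2} {B : I → I → ZMod 2}
    {p : Fin G.M → α} {W : I → G.Cod} (h : SysB G d B p W) {b b' : I → I → ZMod 2}
    (hb : ∀ k k', ∑ i, b' k i * b i k' = if k = k' then 1 else 0) :
    SysB G d (fun i m => ∑ k, ∑ l, b i k * B k l * b' l m) p (fun i => ∑ k, b i k • W k) := by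
  refine ⟨fun i j => ?_, fun i q v hv => ?_⟩
  · rw [snd_sum]
    exact Submodule.sum_mem _ fun k _ => Submodule.smul_mem _ _ (h.1 k j)
  · rw [equ_sum]
    have h1 : ∀ l, G.e v ((W l).2 q) =
        ∑ m, b' l m * G.e v ((∑ n, b m n • W n : G.Cod).2 q) := by
      intro l
      have h2 : ∀ m, G.e v ((∑ n, b m n • W n : G.Cod).2 q) =
          ∑ n, b m n * G.e v ((W n).2 q) := by
        intro m
        rw [snd_sum, map_sum]
        exact Finset.sum_congr rfl fun n _ => map_smul _ _ _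
      rw [Finset.sum_congr rfl fun m _ => by rw [h2 m]]
      simp only [Finset.mul_sum, ← mul_assoc]
      rw [Finset.sum_comm]
      simp only [← Finset.sum_mul, hb]
      simp
    have h3 : ∀ k, G.equ p (W k) q v = d q * ∑ l, B k l *
        ∑ m, b' l m * G.e v ((∑ n, b m n • W n : G.Cod).2 q) := by
      intro k
      rw [h.2 k q v hv]
      congr 1
      exact Finset.sum_congr rfl fun l _ => by rw [← h1 l]
    rw [Finset.sum_congr rfl fun k _ => by rw [h3 k]]
    simp only [Finset.mul_sum, Finset.sum_mul]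
    conv_rhs => rw [Finset.sum_comm]
    refine Finset.sum_congr rfl fun k _ => ?_
    rw [Finset.sum_comm]
    refine Finset.sum_congr rfl fun l _ => Finset.sum_congr rfl fun m _ => ?_
    ring

theorem card_FamB_le [Finite V] [Finite Z] (d : Fin G.M → ZMod 2) (B : I → I → ZMod 2)
    (Bad : (Fin G.M → Th) → (I → Fin G.M → V) → Prop)
    (hBad : ∀ t b y, RowInd b → Bad t y → Bad t (fun i j => ∑ k, b i k • y k j)) (K : ℝ)
    (hK : ∀ B' : I → I → ZMod 2, (Nat.card {pW // FamEB G d B' Bad pW} : ℝ) ≤ K) :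
    (Nat.card {pW // FamB G d B Bad pW} : ℝ) ≤
      2 ^ (Fintype.card I * Fintype.card I) * K := by
  classical
  have hE : ∀ pW : {pW // FamB G d B Bad pW}, ∃ b : I → I → ZMod 2, RowInd b ∧
      ∃ top, G.EchT top (fun i j => ∑ k, b i k • (pW.1.2 k).2 j) := fun pW =>
    G.exists_ech _ pW.2.2.2.1
  choose b hb htop using hE
  let iv : (I → I → ZMod 2) → (I → I → ZMod 2) := fun b =>
    if h : RowInd b then h.inv.choose else 0
  have hiv : ∀ b : I → I → ZMod 2, RowInd b →
      ∀ k k', ∑ i, iv b k i * b i k' = if k = k' then 1 else 0 := by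
    intro b h
    have h1 := h.inv.choose_spec
    simp only [iv, h, dif_pos]
    exact h1
  let cj : (I → I → ZMod 2) → (I → I → ZMod 2) := fun b i m =>
    ∑ k, ∑ l, b i k * B k l * iv b l m
  have hfin : ∀ b, Finite {pW // FamEB G d (cj b) Bad pW} := fun b =>
    G.finite_FamE (I := I) (FamEB G d (cj b) Bad) fun pW h => h.1
  have hmem : ∀ pW : {pW // FamB G d B Bad pW}, FamEB G d (cj (b pW)) Bad
      (pW.1.1, fun i => ∑ k, b pW i k • pW.1.2 k) := by
    intro pW
    refine ⟨pW.2.1, pW.2.2.1.trans (hiv _ (hb pW)), ?_, ?_⟩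
    · simp only [snd_sum]
      exact htop pW
    · simp only [snd_sum]
      exact hBad _ _ _ (hb pW) pW.2.2.2.2
  have h1 : Nat.card {pW // FamB G d B Bad pW} ≤
      Nat.card (Σ b : I → I → ZMod 2, {pW // FamEB G d (cj b) Bad pW}) := by
    refine Nat.card_le_card_of_injective (fun pW : {pW // FamB G d B Bad pW} =>
      (⟨b pW, ⟨_, hmem pW⟩⟩ : Σ b : I → I → ZMod 2, {pW // FamEB G d (cj b) Bad pW})) ?_
    intro pW pW' h
    have h0 := congrArg (fun s : (Σ b : I → I → ZMod 2, {pW // FamEB G d (cj b) Bad pW}) =>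
      (s.1, s.2.1)) h
    simp only [Prod.mk.injEq] at h0
    obtain ⟨h1, h2, h3⟩ := h0
    apply Subtype.ext
    refine Prod.ext h2 ?_
    refine (hb pW).inj fun i => ?_
    have h4 := congrFun h3 i
    rw [h4, h1]
  rw [Nat.card_sigma] at h1
  refine (Nat.cast_le.2 h1).trans ?_
  rw [Nat.cast_sum]
  refine (Finset.sum_le_sum fun b _ => hK (cj b)).trans (le_of_eq ?_)
  rw [Finset.sum_const, Finset.card_univ, nsmul_eq_mul]
  congr 1
  rw [← Nat.card_eq_fintype_card, Nat.card_fun, Nat.card_fun, Nat.card_zmod,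
    Nat.card_eq_fintype_card, pow_mul]
  push_cast
  rfl

open Classical in
theorem card_FamEB [Finite V] [Finite Z] [Fintype Th] [Inhabited Th]
    (d : Fin G.M → ZMod 2) (B : I → I → ZMod 2)
    (Bad : (Fin G.M → Th) → (I → Fin G.M → V) → Prop) :
    (Nat.card {pW // FamEB G d B Bad pW} : ℝ) ≤ (Nat.card Z : ℝ) ^ Fintype.card I *
      ((Nat.card V : ℝ) ^ (Fintype.card I * Fintype.card I) *
      ∑ t : Fin G.M → Th, (∏ j : Fin G.M, G.wt j (t j)) *
        ((Nat.card {x : I → (j : Fin G.M) → G.F (t j) // Bad t (fun i j => x i j)} : ℝ) /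
          ∏ j, (Nat.card (G.F (t j)) : ℝ) ^ Fintype.card I)) := by
  have : ∀ j : Fin G.M, Finite (G.X j) := fun j => (G.hX j).to_subtype
  -- fibration over the types, the first components and the rows
  let Xs : (Fin G.M → Th) → Type := fun t =>
    {x : I → (j : Fin G.M) → G.F (t j) // Bad t (fun i j => x i j) ∧
      ∃ top, G.EchT top (fun i j => (x i j : V))}
  let Ps : (t : Fin G.M → Th) → (I → Z) → Xs t → Type := fun t g x =>
    {p : Fin G.M → α // (∀ j : Fin G.M, p j ∈ G.X j) ∧ (∀ j, G.ty (p j) = t j) ∧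
      SysB G d B p (fun i => (g i, fun j => (x.1 i j : V)))}
  have hPf : ∀ t g x, Finite (Ps t g x) := fun t g x =>
    Finite.of_injective (fun p : Ps t g x =>
      (fun j => ⟨p.1 j, p.2.1 j⟩ : (j : Fin G.M) → G.X j)) (by
        intro a b hab
        apply Subtype.ext
        funext j
        exact congrArg Subtype.val (congrFun hab j))
  have hXf : ∀ t, Finite (Xs t) := fun t => inferInstance
  have h1 : Nat.card {pW // FamEB G d B Bad pW} ≤
      Nat.card (Σ t : Fin G.M → Th, Σ g : I → Z, Σ x : Xs t, Ps t g x) := by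
    refine Nat.card_le_card_of_injective (fun pW : {pW // FamEB G d B Bad pW} =>
      (⟨fun j => G.ty (pW.1.1 j), fun i => (pW.1.2 i).1,
        ⟨fun i j => ⟨(pW.1.2 i).2 j, pW.2.2.1.1 i j⟩, pW.2.2.2.2, pW.2.2.2.1⟩,
        ⟨pW.1.1, pW.2.1, fun j => rfl, pW.2.2.1⟩⟩ :
        Σ t : Fin G.M → Th, Σ g : I → Z, Σ x : Xs t, Ps t g x)) ?_
    intro a b hab
    have h2 := congrArg (fun s : (Σ t : Fin G.M → Th, Σ g : I → Z, Σ x : Xs t, Ps t g x) =>
      (s.2.2.2.1, s.2.1, fun i j => (s.2.2.1.1 i j : V))) hab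
    simp only [Prod.mk.injEq] at h2
    apply Subtype.ext
    refine Prod.ext h2.1 ?_
    funext i
    exact Prod.ext (congrFun h2.2.1 i) (congrFun h2.2.2 i)
  have h2 : (Nat.card {pW // FamEB G d B Bad pW} : ℝ) ≤
      ∑ t : Fin G.M → Th, (Nat.card Z : ℝ) ^ Fintype.card I * (Nat.card (Xs t) *
        ((∏ j : Fin G.M, G.wt j (t j)) * (Nat.card V : ℝ) ^ (Fintype.card I * Fintype.card I) /
          ∏ j, (Nat.card (G.F (t j)) : ℝ) ^ Fintype.card I)) := by
    refine le_trans (Nat.cast_le.2 h1) ?_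
    rw [Nat.card_sigma, Nat.cast_sum]
    refine Finset.sum_le_sum fun t _ => ?_
    have := Fintype.ofFinite Z
    have := Fintype.ofFinite (Xs t)
    rw [Nat.card_sigma, Nat.cast_sum]
    have h3 : ∀ g : I → Z, (Nat.card (Σ x : Xs t, Ps t g x) : ℝ) ≤ Nat.card (Xs t) *
        ((∏ j : Fin G.M, G.wt j (t j)) * (Nat.card V : ℝ) ^ (Fintype.card I * Fintype.card I) /
          ∏ j, (Nat.card (G.F (t j)) : ℝ) ^ Fintype.card I) := by
      intro g
      rw [Nat.card_sigma, Nat.cast_sum]
      have h4 : ∀ x : Xs t, (Nat.card (Ps t g x) : ℝ) ≤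
          (∏ j : Fin G.M, G.wt j (t j)) * (Nat.card V : ℝ) ^ (Fintype.card I * Fintype.card I) /
          ∏ j, (Nat.card (G.F (t j)) : ℝ) ^ Fintype.card I := by
        intro x
        obtain ⟨top, htop⟩ := x.2.2
        rw [le_div_iff₀ (Finset.prod_pos fun j _ => pow_pos (by exact_mod_cast Nat.card_pos) _)]
        exact fib_leB G d B top t g (fun i j => (x.1 i j : V)) (fun i j => (x.1 i j).2) htop
      calc _ ≤ ∑ _x : Xs t, (∏ j : Fin G.M, G.wt j (t j)) *
            (Nat.card V : ℝ) ^ (Fintype.card I * Fintype.card I) /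
            ∏ j, (Nat.card (G.F (t j)) : ℝ) ^ Fintype.card I := Finset.sum_le_sum fun x _ => h4 x
        _ = _ := by
            rw [Finset.sum_const, Finset.card_univ, nsmul_eq_mul,
              Nat.card_eq_fintype_card (α := Xs t)]
    calc _ ≤ ∑ _g : I → Z, (Nat.card (Xs t) *
          ((∏ j : Fin G.M, G.wt j (t j)) * (Nat.card V : ℝ) ^ (Fintype.card I * Fintype.card I) /
          ∏ j, (Nat.card (G.F (t j)) : ℝ) ^ Fintype.card I)) := Finset.sum_le_sum fun g _ => h3 g
      _ = _ := by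
          rw [Finset.sum_const, Finset.card_univ, nsmul_eq_mul]
          congr 1
          rw [Fintype.card_fun, Nat.card_eq_fintype_card (α := Z)]
          push_cast
          rfl
  refine h2.trans ?_
  rw [Finset.mul_sum, Finset.mul_sum]
  refine Finset.sum_le_sum fun t _ => ?_
  have h5 : (Nat.card (Xs t) : ℝ) ≤
      Nat.card {x : I → (j : Fin G.M) → G.F (t j) // Bad t (fun i j => x i j)} := by
    exact_mod_cast Nat.card_le_card_of_injective
      (fun x : Xs t => (⟨x.1, x.2.1⟩ :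
        {x : I → (j : Fin G.M) → G.F (t j) // Bad t (fun i j => x i j)})) (by
        intro a b hab
        exact Subtype.ext (congrArg (fun s :
          {x : I → (j : Fin G.M) → G.F (t j) // Bad t (fun i j => x i j)} => s.1) hab))
  have hw : 0 ≤ ∏ j : Fin G.M, G.wt j (t j) := Finset.prod_nonneg fun j _ => G.wt_nonneg _ _
  have hF : (0 : ℝ) ≤ ∏ j, (Nat.card (G.F (t j)) : ℝ) ^ Fintype.card I :=
    Finset.prod_nonneg fun j _ => by positivity
  calc (Nat.card Z : ℝ) ^ Fintype.card I * (Nat.card (Xs t) *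
        ((∏ j : Fin G.M, G.wt j (t j)) * (Nat.card V : ℝ) ^ (Fintype.card I * Fintype.card I) /
          ∏ j, (Nat.card (G.F (t j)) : ℝ) ^ Fintype.card I)) ≤
      (Nat.card Z : ℝ) ^ Fintype.card I *
        (Nat.card {x : I → (j : Fin G.M) → G.F (t j) // Bad t (fun i j => x i j)} *
        ((∏ j : Fin G.M, G.wt j (t j)) * (Nat.card V : ℝ) ^ (Fintype.card I * Fintype.card I) /
          ∏ j, (Nat.card (G.F (t j)) : ℝ) ^ Fintype.card I)) := by
        refine mul_le_mul_of_nonneg_left (mul_le_mul_of_nonneg_right h5 ?_) (by positivity)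
        exact div_nonneg (mul_nonneg hw (by positivity)) hF
    _ = _ := by ring

open Classical in
/-- **Moment theorem.** -/
theorem momentB [Finite V] [Finite Z] [Fintype Th] [Inhabited Th]
    (d : Fin G.M → ZMod 2) (B : I → I → ZMod 2)
    (Bad : (Fin G.M → Th) → (I → Fin G.M → V) → Prop)
    (hBad : ∀ t b y, RowInd b → Bad t y → Bad t (fun i j => ∑ k, b i k • y k j)) :
    (Nat.card {pW // FamB G d B Bad pW} : ℝ) ≤
      2 ^ (Fintype.card I * Fintype.card I) * (Nat.card Z : ℝ) ^ Fintype.card I *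
      (Nat.card V : ℝ) ^ (Fintype.card I * Fintype.card I) *
      ∑ t : Fin G.M → Th, (∏ j : Fin G.M, G.wt j (t j)) *
        ((Nat.card {x : I → (j : Fin G.M) → G.F (t j) // Bad t (fun i j => x i j)} : ℝ) /
          ∏ j, (Nat.card (G.F (t j)) : ℝ) ^ Fintype.card I) := by
  rw [mul_assoc, mul_assoc]
  exact card_FamB_le G d B Bad hBad _ fun B' => card_FamEB G d B' Bad

end Pool.Agent.SmNH.J
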