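import Pool.Agent.Lib.SmNH.J.Mom2

/-!
HEIGHTS over SMITH-U, block J+: the moment theorem with weights; the families with a rare pattern;
the codes whose rows are determined by the types.
-/

set_option autoImplicit false

open Module Finset

namespace Pool.Agent.SmNH.J

open Pool.Agent.SmN.J

variable {V Th α Z : Type} [AddCommGroup V] [Module (ZMod 2) V] [AddCommGroup Z]
  [Module (ZMod 2) Z] {G : GD V Th α Z}

variable [Fintype Th] {A : Finset (Fin G.M)} {sp : Th → Prop} {K : Submodule (ZMod 2) Z}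
  {κ δ : ℝ}

open Classical in
theorem sum_rho (h : G.GW A sp K κ δ) {r0 : ℝ} (hr00 : 0 ≤ r0) (hr01 : r0 ≤ 1) :
    ∑ t : Fin G.M → Th, ∏ j : Fin G.M,
      (G.wt j (t j) * (if j ∈ A ∧ sp (t j) then 1 - r0 else 1)) ≤
      (1 + δ) ^ G.M * (1 + δ - κ * r0) ^ A.card * G.pts := by
  let ρ : Fin G.M → Th → ℝ := fun j t => if j ∈ A ∧ sp t then 1 - r0 else 1
  have hρ0 : ∀ j t, 0 ≤ ρ j t := by
    intro j t
    simp only [ρ]
    split_ifs <;> linarith
  have hρ1 : ∀ j t, ρ j t ≤ 1 := by
    intro j t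
    simp only [ρ]
    split_ifs <;> linarith
  change ∑ t : Fin G.M → Th, ∏ j : Fin G.M, (G.wt j (t j) * ρ j (t j)) ≤ _
  rw [sum_prod_pi (fun j t => G.wt j t * ρ j t)]
  refine h.prod_le ?_ _ (fun j => Finset.sum_nonneg fun t _ =>
    mul_nonneg (G.wt_nonneg _ _) (hρ0 _ _)) (fun j => ?_) fun j hj => ?_
  · nlinarith [h.κ0, h.κ1, h.δ0]
  · refine le_trans (Finset.sum_le_sum fun t _ => ?_) (h.sum_wt j)
    exact mul_le_of_le_one_right (G.wt_nonneg _ _) (hρ1 _ _)
  · have h7 : ∑ t, G.wt j t * ρ j t = ∑ t, G.wt j t -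
        r0 * ∑ t ∈ univ.filter sp, G.c j t := by
      rw [Finset.mul_sum, Finset.sum_filter, ← Finset.sum_sub_distrib]
      refine Finset.sum_congr rfl fun t _ => ?_
      rw [h.wt_large hj]
      simp only [ρ, hj, true_and]
      split_ifs <;> ring
    rw [h7]
    have h8 := h.spl j hj
    have h9 := h.sum_wt j
    have h11 : r0 * (κ * Nat.card (G.X j)) ≤ r0 * ∑ t ∈ univ.filter sp, G.c j t :=
      mul_le_mul_of_nonneg_left h8 hr00
    nlinarith

variable [Finite V]

open Classical in
/-- The sum for the rare patterns. -/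
theorem sum_pat (h : G.GW A sp K κ δ) (I : Type) [Fintype I] (k : ℕ) :
    ∑ t : Fin G.M → Th, (∏ j : Fin G.M, G.wt j (t j)) *
        ((Nat.card {x : I → (j : Fin G.M) → G.F (t j) //
          ∃ w : I → V, Nat.card (G.pc A sp t (fun i j => x i j) w) < k} : ℝ) /
          ∏ j, (Nat.card (G.F (t j)) : ℝ) ^ Fintype.card I) ≤
      (Nat.card V : ℝ) ^ Fintype.card I *
      (2 ^ k * ((1 + δ) ^ G.M * (1 + δ - κ / (2 * (Nat.card V : ℝ) ^ Fintype.card I)) ^ A.card *
        G.pts)) := by
  set r0 : ℝ := 1 / (2 * (Nat.card V : ℝ) ^ Fintype.card I) with hr0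
  have hV : (1 : ℝ) ≤ Nat.card V := by exact_mod_cast Nat.card_pos
  have hVI : (1 : ℝ) ≤ (Nat.card V : ℝ) ^ Fintype.card I := one_le_pow₀ hV
  have hr00 : 0 ≤ r0 := by positivity
  have hr01 : r0 ≤ 1 / 2 := by
    rw [hr0, div_le_div_iff₀ (by positivity) (by norm_num)]
    linarith
  let ρ : Fin G.M → Th → ℝ := fun j t => if j ∈ A ∧ sp t then 1 - r0 else 1
  have h1 : ∀ t : Fin G.M → Th, (Nat.card {x : I → (j : Fin G.M) → G.F (t j) //
      ∃ w : I → V, Nat.card (G.pc A sp t (fun i j => x i j) w) < k} : ℝ) /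
      ∏ j, (Nat.card (G.F (t j)) : ℝ) ^ Fintype.card I ≤
      (Nat.card V : ℝ) ^ Fintype.card I * (2 ^ k * ∏ j, ρ j (t j)) := by
    intro t
    have hfinV : Fintype (I → V) := Fintype.ofFinite _
    have h2 : (Nat.card {x : I → (j : Fin G.M) → G.F (t j) //
      ∃ w : I → V, Nat.card (G.pc A sp t (fun i j => x i j) w) < k} : ℝ) ≤
      ∑ w : I → V, (Nat.card {x : I → (j : Fin G.M) → G.F (t j) //
        Nat.card (G.pc A sp t (fun i j => x i j) w) < k} : ℝ) := by
      have h3 : Nat.card {x : I → (j : Fin G.M) → G.F (t j) //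
          ∃ w : I → V, Nat.card (G.pc A sp t (fun i j => x i j) w) < k} ≤
          Nat.card (Σ w : I → V, {x : I → (j : Fin G.M) → G.F (t j) //
            Nat.card (G.pc A sp t (fun i j => x i j) w) < k}) := by
        refine Nat.card_le_card_of_injective
          (fun x : {x : I → (j : Fin G.M) → G.F (t j) //
            ∃ w : I → V, Nat.card (G.pc A sp t (fun i j => x i j) w) < k} =>
            (⟨x.2.choose, ⟨x.1, x.2.choose_spec⟩⟩ : Σ w : I → V,
              {x : I → (j : Fin G.M) → G.F (t j) //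
            Nat.card (G.pc A sp t (fun i j => x i j) w) < k})) ?_
        intro a b hab
        have h4 := congrArg (fun s : (Σ w : I → V, {x : I → (j : Fin G.M) → G.F (t j) //
            Nat.card (G.pc A sp t (fun i j => x i j) w) < k}) => s.2.1) hab
        exact Subtype.ext h4
      rw [Nat.card_sigma] at h3
      exact_mod_cast h3
    refine (div_le_div_of_nonneg_right h2 (Finset.prod_nonneg fun j _ => by positivity)).trans ?_
    rw [Finset.sum_div]
    have h5 : ∀ w : I → V, (Nat.card {x : I → (j : Fin G.M) → G.F (t j) //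
        Nat.card (G.pc A sp t (fun i j => x i j) w) < k} : ℝ) /
        ∏ j, (Nat.card (G.F (t j)) : ℝ) ^ Fintype.card I ≤ 2 ^ k * ∏ j, ρ j (t j) :=
      fun w => GD.card_bad_rows h k t w
    calc _ ≤ ∑ _w : I → V, 2 ^ k * ∏ j, ρ j (t j) := Finset.sum_le_sum fun w _ => h5 w
      _ = _ := by
          rw [Finset.sum_const, Finset.card_univ, nsmul_eq_mul]
          congr 1
          rw [← Nat.card_eq_fintype_card, Nat.card_fun, Nat.card_eq_fintype_card (α := I)]
          push_cast
          rfl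
  have h6 : ∑ t : Fin G.M → Th, (∏ j : Fin G.M, G.wt j (t j)) *
        ((Nat.card {x : I → (j : Fin G.M) → G.F (t j) //
          ∃ w : I → V, Nat.card (G.pc A sp t (fun i j => x i j) w) < k} : ℝ) /
          ∏ j, (Nat.card (G.F (t j)) : ℝ) ^ Fintype.card I) ≤
      (Nat.card V : ℝ) ^ Fintype.card I * (2 ^ k *
        ∑ t : Fin G.M → Th, ∏ j : Fin G.M, (G.wt j (t j) * ρ j (t j))) := by
    rw [Finset.mul_sum, Finset.mul_sum]
    refine Finset.sum_le_sum fun t _ => ?_
    refine (mul_le_mul_of_nonneg_left (h1 t)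
      (Finset.prod_nonneg fun j _ => G.wt_nonneg _ _)).trans (le_of_eq ?_)
    rw [Finset.prod_mul_distrib]
    ring
  refine h6.trans ?_
  refine mul_le_mul_of_nonneg_left (mul_le_mul_of_nonneg_left ?_ (by positivity)) (by positivity)
  have h10 : κ / (2 * (Nat.card V : ℝ) ^ Fintype.card I) = κ * r0 := by rw [hr0]; ring
  rw [h10]
  exact sum_rho h hr00 (by linarith)

variable [Finite Z] [Inhabited Th]

/-- The families with a rare pattern. -/
theorem mom_patB (h : G.GW A sp K κ δ) (I : Type) [Fintype I] (d : Fin G.M → ZMod 2)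
    (B : I → I → ZMod 2) (k : ℕ) :
    (Nat.card {pW // FamB G d B (fun t x => ∃ w : I → V, Nat.card (G.pc A sp t x w) < k) pW} :
      ℝ) ≤
      2 ^ (Fintype.card I * Fintype.card I) * (Nat.card Z : ℝ) ^ Fintype.card I *
      (Nat.card V : ℝ) ^ (Fintype.card I * Fintype.card I) * ((Nat.card V : ℝ) ^ Fintype.card I *
      (2 ^ k * ((1 + δ) ^ G.M * (1 + δ - κ / (2 * (Nat.card V : ℝ) ^ Fintype.card I)) ^ A.card *
        G.pts))) := by
  classical
  refine (momentB G d B (fun t x => ∃ w : I → V, Nat.card (G.pc A sp t x w) < k)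
    (fun t b y hb hy => ?_)).trans ?_
  · -- invariance
    obtain ⟨w, hw⟩ := hy
    refine ⟨fun i => ∑ k, b i k • w k, lt_of_le_of_lt (le_of_eq ?_) hw⟩
    congr 1
    have : G.pc A sp t (fun i j => ∑ k, b i k • y k j) (fun i => ∑ k, b i k • w k) =
        G.pc A sp t y w := by
      ext j
      simp only [GD.pc, Set.mem_ofPred_eq]
      constructor
      · rintro ⟨h1, h2, h3⟩
        refine ⟨h1, h2, fun i => ?_⟩
        exact congrFun (hb.inj (y := fun i => y i j) (z := w) h3) i
      · rintro ⟨h1, h2, h3⟩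
        refine ⟨h1, h2, fun i => Finset.sum_congr rfl fun k _ => by rw [h3 k]⟩
    rw [this]
  · exact mul_le_mul_of_nonneg_left (sum_pat h I k) (by positivity)

/-- The codes whose rows are determined by the types. -/
theorem mom_det (h : G.GW A sp K κ δ) (hV : 2 ≤ Nat.card V)
    (he : ∀ y : V, (∀ v, G.e v y = 0) → y = 0) (f : Th → V → ZMod 2) :
    (Nat.card {pW // G.Fam (I := Unit) (fun t x => ∀ j ∈ A, sp (t j) → ∀ v,
      G.e v (x () j) = f (t j) v) pW} : ℝ) ≤
      2 * Nat.card Z * Nat.card V *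
        ((1 + δ) ^ G.M * (1 + δ - κ / 2) ^ A.card * G.pts) := by
  classical
  have h0 := G.moment (I := Unit) (fun t x => ∀ j ∈ A, sp (t j) → ∀ v,
      G.e v (x () j) = f (t j) v) (fun t b y hb hy j hj hs v => by
    have h1 : b () () = 1 := by
      by_contra hne
      have h2 : b () () = 0 := by
        generalize b () () = z at hne
        revert z
        decide
      have h3 := hb (fun _ => 1) (fun k => by
        rw [Fintype.sum_unique]
        simp [h2])
      have h4 := congrFun h3 ()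
      simp at h4
    have h5 : (∑ k, b () k • y k j) = y () j := by
      rw [Fintype.sum_unique]
      change b () () • y () j = _
      rw [h1, one_smul]
    change G.e v (∑ k, b () k • y k j) = _
    rw [h5]
    exact hy j hj hs v)
  rw [Fintype.card_unit, mul_one, pow_one, pow_one, pow_one] at h0
  refine h0.trans (mul_le_mul_of_nonneg_left ?_ (by positivity))
  have h10 : κ / 2 = κ * (1 / 2) := by ring
  rw [h10]
  refine le_trans (Finset.sum_le_sum fun t _ => ?_) (sum_rho h (r0 := 1 / 2) (by norm_num)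
    (by norm_num))
  rw [Finset.prod_mul_distrib]
  refine mul_le_mul_of_nonneg_left ?_ (Finset.prod_nonneg fun j _ => G.wt_nonneg _ _)
  have hF : ∀ j, (0 : ℝ) < Nat.card (G.F (t j)) := fun j => by exact_mod_cast Nat.card_pos
  simp only [pow_one]
  rw [div_le_iff₀ (Finset.prod_pos fun j _ => hF j), ← Finset.prod_mul_distrib]
  -- the rows
  let Al : (j : Fin G.M) → Type := fun j =>
    {y : G.F (t j) // j ∈ A → sp (t j) → ∀ v, G.e v y = f (t j) v}
  have h1 : Nat.card {x : Unit → (j : Fin G.M) → G.F (t j) //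
      ∀ j ∈ A, sp (t j) → ∀ v, G.e v (x () j) = f (t j) v} ≤ Nat.card ((j : Fin G.M) → Al j) := by
    refine Nat.card_le_card_of_injective (fun x : {x : Unit → (j : Fin G.M) → G.F (t j) //
      ∀ j ∈ A, sp (t j) → ∀ v, G.e v (x () j) = f (t j) v} =>
      (fun j => ⟨x.1 () j, fun hj hs v => x.2 j hj hs v⟩ : (j : Fin G.M) → Al j)) ?_
    intro x y hxy
    apply Subtype.ext
    funext i j
    exact congrArg Subtype.val (congrFun hxy j)
  rw [Nat.card_pi] at h1
  refine (Nat.cast_le.2 h1).trans ?_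
  rw [Nat.cast_prod]
  refine Finset.prod_le_prod (fun j _ => Nat.cast_nonneg _) fun j _ => ?_
  by_cases hj : j ∈ A ∧ sp (t j)
  · rw [if_pos hj]
    have h2 : Nat.card (Al j) ≤ 1 := by
      rw [Finite.card_le_one_iff_subsingleton]
      refine ⟨fun y y' => Subtype.ext (Subtype.ext (sub_eq_zero.1 (he _ fun v => ?_)))⟩
      rw [map_sub, y.2 hj.1 hj.2 v, y'.2 hj.1 hj.2 v, sub_self]
    have h3 : (2 : ℝ) ≤ Nat.card (G.F (t j)) := by
      rw [h.sp_top _ hj.2, Nat.card_congr (Submodule.topEquiv (R := ZMod 2) (M := V)).toEquiv]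
      exact_mod_cast hV
    have h4 : (Nat.card (Al j) : ℝ) ≤ 1 := by exact_mod_cast h2
    linarith
  · rw [if_neg hj, one_mul]
    exact_mod_cast Nat.card_le_card_of_injective (fun y : Al j => y.1) Subtype.val_injective

end Pool.Agent.SmNH.J
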