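import Pool.Agent.Lib.SmNH.J.Pat

/-!
HEIGHTS over SMITH-U, block J+: solutions of the inhomogeneous system which are supported on the
small places.
-/

set_option autoImplicit false

open Module Finset

namespace Pool.Agent.SmNH.J

open Pool.Agent.SmN.J

variable {V Th α Z : Type} [AddCommGroup V] [Module (ZMod 2) V] [AddCommGroup Z]
  [Module (ZMod 2) Z] {G : GD V Th α Z}

/-- The number of families of places for one Selmer code and one solution supported on the small
places. -/
theorem fib_two [Finite V] [Inhabited Th] (d : Fin G.M → ZMod 2) (top : Fin G.M)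
    (t : Fin G.M → Th) (g g' : Z) (x : Fin G.M → V) (hxF : ∀ j, x j ∈ G.F (t j))
    (htop : G.ns ≤ top) (hx0 : ∀ j, top < j → x j = 0) (hxt : x top ≠ 0)
    (x' : Fin G.M → V) (hxF' : ∀ j, x' j ∈ G.F (t j)) (hx0' : ∀ j : Fin G.M, G.ns ≤ j → x' j = 0)
    (hne : ∃ j, x' j ≠ 0) :
    (Nat.card {p : Fin G.M → α // (∀ j : Fin G.M, p j ∈ G.X j) ∧ (∀ j, G.ty (p j) = t j) ∧
      ((g, x) : G.Cod) ∈ G.Selp p ∧ ∀ q : Fin G.M, G.ns ≤ q → ∀ v ∈ G.F (G.ty (p q)),
      G.equ p (g', x') q v = d q * G.e v (x q)} : ℝ) *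
      ∏ j : Fin G.M, ((Nat.card (G.F (t j)) : ℝ) *
        (if G.ns ≤ j then (Nat.card (G.F (t j)) : ℝ) else 1)) ≤
      (∏ j : Fin G.M, G.wt j (t j)) * (Nat.card V : ℝ) ^ 3 := by
  classical
  let t' : ℕ → Th := fun j => if h : j < G.M then t ⟨j, h⟩ else default
  have ht' : ∀ j : Fin G.M, t' j = t j := fun j => by simp [t']
  let xx : ℕ → V := fun j => if h : j < G.M then x ⟨j, h⟩ else 0
  have hxx : ∀ j : Fin G.M, xx j = x j := fun j => by simp [xx]
  let xx' : ℕ → V := fun j => if h : j < G.M then x' ⟨j, h⟩ else 0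
  have hxx' : ∀ j : Fin G.M, xx' j = x' j := fun j => by simp [xx']
  let d' : ℕ → ZMod 2 := fun j => if h : j < G.M then d ⟨j, h⟩ else 0
  have hd' : ∀ j : Fin G.M, d' j = d j := fun j => by simp [d']
  have hxxl : ∀ j, G.ns ≤ j → xx' j = 0 := by
    intro j hj
    by_cases h : j < G.M
    · simp only [xx', h, dif_pos]
      exact hx0' ⟨j, h⟩ hj
    · simp only [xx', h, dif_neg, not_false_iff]
  obtain ⟨i0, hi0⟩ := hne
  have hi0' : (i0 : ℕ) < G.ns := by
    by_contra h
    exact hi0 (hx0' i0 (by omega))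
  have htp := tp_spec (f := xx') hi0' (by rw [hxx']; exact hi0)
  set top' := tp G.ns xx' with htop'
  have htt : (top : ℕ) ≠ top' := by omega
  let xb : Bool → ℕ → V := fun i => if i = true then xx else xx'
  let tb : Bool → ℕ := fun i => if i = true then (top : ℕ) else top'
  let zb : Bool → ℕ → V → ZMod 2 := fun i j v => if i = true then G.zz (t' j) v g
    else G.zz (t' j) v g' + d' j * G.e v (xx j)
  let C : CG V α Bool :=
    { e := G.e
      F := fun j => G.F (t' j)
      X := fun j => {a | a ∈ G.X j ∧ G.ty a = t' j ∧ j < G.M}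
      m := G.m
      l := G.l
      self := fun a v y => G.self a v y
      self0 := fun a v => map_zero _
      z := zb
      R := fun i j => G.R (t' i) (t' j)
      R' := fun i j => G.R' (t' i) (t' j)
      x := xb
      top := tb
      ns := G.ns
      c := fun j => G.c j (t' j)
      c0 := fun j => G.c0 _ _
      hX := fun j => (G.hX j).subset fun a ha => ha.1
      hx := fun i j => by
        cases i
        · change xx' j ∈ _
          by_cases h : j < G.M
          · have h1 := hxF' ⟨j, h⟩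
            simp only [xx', t', h, dif_pos]
            exact h1
          · simp only [xx', h, dif_neg, not_false_iff]
            exact zero_mem _
        · change xx j ∈ _
          by_cases h : j < G.M
          · have h1 := hxF ⟨j, h⟩
            simp only [xx, t', h, dif_pos]
            exact h1
          · simp only [xx, h, dif_neg, not_false_iff]
            exact zero_mem _
      hx0 := fun i j hij => by
        cases i
        · change xx' j = 0
          have hij' : top' < j := hij
          by_cases h : j < G.ns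
          · by_contra hc
            exact absurd (le_tp h hc) (not_le.2 hij')
          · exact hxxl j (by omega)
        · change xx j = 0
          have hij' : (top : ℕ) < j := hij
          by_cases h : j < G.M
          · simp only [xx, h, dif_pos]
            exact hx0 ⟨j, h⟩ (Fin.lt_def.2 hij')
          · simp only [xx, h, dif_neg, not_false_iff]
      hind := fun s => by
        have hsub : Subsingleton {i : Bool // tb i = s} := by
          refine ⟨fun i i' => ?_⟩
          obtain ⟨i, hi⟩ := i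
          obtain ⟨i', hi'⟩ := i'
          cases i <;> cases i'
          · rfl
          · exact absurd (hi'.trans hi.symm) htt
          · exact absurd (hi.trans hi'.symm) htt
          · rfl
        have hnz : ∀ i : {i : Bool // tb i = s}, xb i s ≠ 0 := by
          rintro ⟨i, hi⟩
          cases i
          · have h1 : top' = s := hi
            change xx' s ≠ 0
            rw [← h1]
            exact htp.2
          · have h1 : (top : ℕ) = s := hi
            change xx s ≠ 0
            rw [← h1, hxx]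
            exact hxt
        rw [Fintype.linearIndependent_iff]
        intro c hc i
        have h3 : ∑ i : {i : Bool // tb i = s}, c i • xb i s = c i • xb i s := by
          rw [Finset.sum_eq_single i (fun i' _ hi' => absurd (Subsingleton.elim i' i) hi')
            (fun h => absurd (mem_univ _) h)]
        rw [h3] at hc
        rcases smul_eq_zero.1 hc with h4 | h4
        · exact h4
        · exact absurd h4 (hnz i)
      recip := fun i j hij a ha b hb v hv y hy => by
        have h := G.recip i j hij a ha.1 b hb.1 v (by rw [ha.2.1]; exact hv) y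
          (by rw [hb.2.1]; exact hy)
        rw [h, ha.2.1, hb.2.1]
      recip' := fun i j hij a ha b hb => by
        rw [G.recip' i j hij a ha.1 b hb.1, ha.2.1, hb.2.1]
      small := fun j hj => by
        have := (G.hX j).to_subtype
        refine le_trans ?_ (G.small j hj)
        exact Nat.card_mono (G.hX j) (fun a ha => ha.1)
      NI := fun j hj p hp u ε => by
        by_cases h : j < G.M
        · have h1 := G.NI j hj h p (fun i => t' i) (fun i => ⟨(hp i).1, (hp i).2.1⟩) (t' j) u ε
          refine le_trans (le_of_eq ?_) h1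
          congr 2
          refine Nat.card_congr (Equiv.subtypeEquivRight fun a => ?_)
          constructor
          · rintro ⟨⟨h2, h3, _⟩, h4⟩
            exact ⟨h2, h3, h4⟩
          · rintro ⟨h2, h3, h4⟩
            exact ⟨⟨h2, h3, h⟩, h4⟩
        · have h1 : IsEmpty {a : α // a ∈ {a | a ∈ G.X j ∧ G.ty a = t' j ∧ j < G.M} ∧
              ∀ i, (G.m a (p i)).domRestrict₁₂ (G.F (t' j)) (G.F (t' i)) = u i ∧
              G.l a (p i) = ε i} := ⟨fun a => h a.2.1.2.2⟩
          rw [Nat.card_of_isEmpty, Nat.cast_zero, zero_mul]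
          exact G.c0 _ _ }
  have hmain := C.count_main G.M G.hns 0
  have hV1 : (1 : ℝ) ≤ Nat.card V := by exact_mod_cast Nat.card_pos
  -- the product of the targets
  have hBB : ∏ j : Fin G.M, ((Nat.card (G.F (t j)) : ℝ) *
        (if G.ns ≤ j then (Nat.card (G.F (t j)) : ℝ) else 1)) ≤
      (C.BB G.M : ℝ) * (Nat.card V : ℝ) ^ 3 := by
    have h1 : ∀ q, Nat.card {i // C.top i < G.M ∧ (C.ns ≤ q ∨ C.ns ≤ C.top i)} =
        if G.ns ≤ q then 2 else 1 := by
      intro q
      have hM1 : (top : ℕ) < G.M := top.2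
      have hM2 : top' < G.M := htp.1.trans_le G.hns
      split_ifs with hq
      · have h2 : Nat.card {i // C.top i < G.M ∧ (C.ns ≤ q ∨ C.ns ≤ C.top i)} = Nat.card Bool := by
          refine Nat.card_congr (Equiv.subtypeUnivEquiv fun i => ⟨?_, Or.inl hq⟩)
          cases i
          · exact hM2
          · exact hM1
        rw [h2, Nat.card_eq_fintype_card, Fintype.card_bool]
      · rw [Nat.card_eq_one_iff_unique]
        refine ⟨⟨fun i i' => ?_⟩, ⟨⟨true, hM1, Or.inr htop⟩⟩⟩
        obtain ⟨i, hi, hi2⟩ := i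
        obtain ⟨i', hi', hi2'⟩ := i'
        have hf : ∀ i : Bool, (C.ns ≤ q ∨ C.ns ≤ C.top i) → i = true := by
          intro i hi
          cases i
          · exfalso
            rcases hi with h | h
            · exact hq h
            · have h' : G.ns ≤ top' := h
              omega
          · rfl
        have e1 := hf i hi2
        have e2 := hf i' hi2'
        subst e1
        subst e2
        rfl
    have h2 : (C.BB G.M : ℝ) = ∏ q : Fin G.M, if C.NP q then
        (Nat.card (G.F (t q)) : ℝ) ^ (if G.ns ≤ q then 2 else 1) else 1 := by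
      unfold CG.BB
      rw [Nat.cast_prod, Finset.prod_filter,
        ← Fin.prod_univ_eq_prod_range (fun q => if C.NP q then
          ((Nat.card (C.F q) ^ Nat.card {i // C.top i < G.M ∧ (C.ns ≤ q ∨ C.ns ≤ C.top i)} : ℕ) :
            ℝ) else 1)]
      refine Finset.prod_congr rfl fun q _ => ?_
      have h3 : C.F q = G.F (t q) := congrArg G.F (ht' q)
      rw [h3, h1]
      push_cast
      rfl
    have h3 : (Nat.card V : ℝ) ^ 3 = (∏ q : Fin G.M, if q = top then (Nat.card V : ℝ) ^ 2 else 1) *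
        ∏ q : Fin G.M, if q = (⟨top', htp.1.trans_le G.hns⟩ : Fin G.M) then (Nat.card V : ℝ)
          else 1 := by
      rw [Finset.prod_ite_eq' , Finset.prod_ite_eq', if_pos (mem_univ _), if_pos (mem_univ _)]
      ring
    rw [h2, h3, ← Finset.prod_mul_distrib, ← Finset.prod_mul_distrib]
    refine Finset.prod_le_prod (fun q _ => by positivity) fun q _ => ?_
    have hF0 : (0 : ℝ) ≤ Nat.card (G.F (t q)) := Nat.cast_nonneg _
    have hFV : (Nat.card (G.F (t q)) : ℝ) ≤ Nat.card V := by
      exact_mod_cast Nat.card_le_card_of_injective _ (Submodule.subtype_injective _)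
    by_cases hNP : C.NP q
    · rw [if_pos hNP]
      have h4 : (1 : ℝ) ≤ (if q = top then (Nat.card V : ℝ) ^ 2 else 1) *
          (if q = (⟨top', htp.1.trans_le G.hns⟩ : Fin G.M) then (Nat.card V : ℝ) else 1) := by
        have h5 : (1 : ℝ) ≤ if q = top then (Nat.card V : ℝ) ^ 2 else 1 := by
          split_ifs
          · exact one_le_pow₀ hV1
          · exact le_rfl
        have h6 : (1 : ℝ) ≤ if q = (⟨top', htp.1.trans_le G.hns⟩ : Fin G.M) then
            (Nat.card V : ℝ) else 1 := by
          split_ifs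
          · exact hV1
          · exact le_rfl
        nlinarith
      refine le_trans (le_of_eq ?_) (le_mul_of_one_le_right (by positivity) h4)
      split_ifs
      · rw [pow_two]
      · rw [pow_one, mul_one]
    · rw [if_neg hNP, one_mul]
      unfold CG.NP at hNP
      push Not at hNP
      obtain ⟨i, hi⟩ := hNP
      cases i
      · have hi' : top' = q := hi
        have hq : q = (⟨top', htp.1.trans_le G.hns⟩ : Fin G.M) := Fin.ext hi'.symm
        have hq2 : ¬ (q = top) := by
          intro h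
          exact htt (by rw [← h, ← hi'])
        have hq3 : ¬ (G.ns ≤ (q : ℕ)) := by omega
        rw [if_neg hq3, if_neg hq2, if_pos hq, mul_one, one_mul]
        exact hFV
      · have hi' : (top : ℕ) = q := hi
        have hq : q = top := Fin.ext hi'.symm
        have hq2 : ¬ (q = (⟨top', htp.1.trans_le G.hns⟩ : Fin G.M)) := by
          intro h
          have := congrArg Fin.val h
          exact htt (by rw [hi', this])
        have hq3 : G.ns ≤ (q : ℕ) := by omega
        rw [if_pos hq3, if_pos hq, if_neg hq2, mul_one, pow_two]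
        exact mul_le_mul hFV hFV hF0 (by linarith)
  -- the number of families
  have hle : Nat.card {p : Fin G.M → α // (∀ j : Fin G.M, p j ∈ G.X j) ∧
      (∀ j, G.ty (p j) = t j) ∧
      ((g, x) : G.Cod) ∈ G.Selp p ∧ ∀ q : Fin G.M, G.ns ≤ q → ∀ v ∈ G.F (G.ty (p q)),
      G.equ p (g', x') q v = d q * G.e v (x q)} ≤
      Nat.card {p : Fin G.M → α // C.Sol G.M 0 p} := by
    have hf := C.finite_pi G.M (C.Sol G.M 0) fun p hp => hp.1
    have hsol : ∀ p : Fin G.M → α, (∀ j : Fin G.M, p j ∈ G.X j) → (∀ j, G.ty (p j) = t j) →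
        ((g, x) : G.Cod) ∈ G.Selp p → (∀ q : Fin G.M, G.ns ≤ q → ∀ v ∈ G.F (G.ty (p q)),
        G.equ p (g', x') q v = d q * G.e v (x q)) → C.Sol G.M 0 p := by
      intro p h1 h2 h3 h3'
      refine ⟨fun j => ⟨h1 j, (h2 j).trans (ht' j).symm, j.2⟩, fun i _ q _ hor v hv => ?_⟩
      have hv' : v ∈ G.F (G.ty (p q)) := by
        rw [h2 q, ← ht' q]
        exact hv
      cases i
      · have hq : G.ns ≤ (q : ℕ) := by
          rcases hor with h | h
          · exact h
          · exfalso
            have h' : G.ns ≤ top' := h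
            omega
        have h4 := h3' q hq v hv'
        change eqn G.e G.m G.l (fun a v y => G.self a v y) zb xb 0 p false q v = 0
        unfold GD.equ at h4
        unfold eqn
        have hzb : zb false q v = G.zz (t q) v g' + d q * G.e v (x q) := by
          change G.zz (t' q) v g' + d' q * G.e v (xx q) = _
          rw [ht', hd', hxx]
        have hxb : ∀ j : Fin G.M, xb false j = x' j := fun j => hxx' j
        simp only [hzb, hxb, h2, Pi.zero_apply, zero_mul, add_zero] at h4 ⊢
        generalize d q * G.e v (x q) = y0 at h4 ⊢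
        generalize ∑ q' : Fin G.M, (if q' = q then 0 else
          G.m (p q) (p q') v (x' q') + G.l (p q) (p q') * G.e v (x' q)) = y1 at h4 ⊢
        generalize G.zz (t q) v g' = y2 at h4 ⊢
        generalize G.self (p q) v (x' q) = y3 at h4 ⊢
        revert h4
        revert y0 y1 y2 y3
        decide
      · have h4 := ((G.mem_Selp).1 h3).2 q v hv'
        rw [← h4]
        change eqn G.e G.m G.l (fun a v y => G.self a v y) zb xb 0 p true q v = _
        unfold eqn GD.equ
        have hzb : zb true q v = G.zz (t q) v g := by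
          change G.zz (t' q) v g = _
          rw [ht']
        have hxb : ∀ j : Fin G.M, xb true j = x j := fun j => hxx j
        simp only [hzb, hxb, h2, Pi.zero_apply, zero_mul, add_zero]
    exact Nat.card_le_card_of_injective
      (fun p : {p : Fin G.M → α // (∀ j : Fin G.M, p j ∈ G.X j) ∧
        (∀ j, G.ty (p j) = t j) ∧
        ((g, x) : G.Cod) ∈ G.Selp p ∧ ∀ q : Fin G.M, G.ns ≤ q → ∀ v ∈ G.F (G.ty (p q)),
        G.equ p (g', x') q v = d q * G.e v (x q)} =>
        (⟨p.1, hsol p.1 p.2.1 p.2.2.1 p.2.2.2.1 p.2.2.2.2⟩ :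
          {p : Fin G.M → α // C.Sol G.M 0 p})) (by
          intro p p' h
          exact Subtype.ext (congrArg (fun s : {p : Fin G.M → α // C.Sol G.M 0 p} => s.1) h))
  by_cases hemp : IsEmpty {p : Fin G.M → α // (∀ j : Fin G.M, p j ∈ G.X j) ∧
      (∀ j, G.ty (p j) = t j) ∧
      ((g, x) : G.Cod) ∈ G.Selp p ∧ ∀ q : Fin G.M, G.ns ≤ q → ∀ v ∈ G.F (G.ty (p q)),
      G.equ p (g', x') q v = d q * G.e v (x q)}
  · rw [Nat.card_of_isEmpty, Nat.cast_zero, zero_mul]
    exact mul_nonneg (Finset.prod_nonneg fun j _ => G.wt_nonneg _ _) (by positivity)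
  · rw [not_isEmpty_iff] at hemp
    obtain ⟨⟨p0, hp0, hp0', _⟩⟩ := hemp
    have hw : ∏ j ∈ Finset.Ico G.ns G.M, C.c j = ∏ j : Fin G.M, G.wt j (t j) := by
      have h1 : ∏ j : Fin G.M, G.wt j (t j) =
          ∏ j ∈ Finset.range G.M, (if j < G.ns then 1 else C.c j) := by
        rw [← Fin.prod_univ_eq_prod_range (fun j => if j < G.ns then (1 : ℝ) else C.c j)]
        refine Finset.prod_congr rfl fun j _ => ?_
        unfold GD.wt
        by_cases hj : (j : ℕ) < G.ns
        · rw [if_pos hj, if_pos hj, if_pos ⟨p0 j, hp0 j, hp0' j⟩]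
        · rw [if_neg hj, if_neg hj]
          exact congrArg (G.c j) (ht' j).symm
      rw [h1, Finset.range_eq_Ico, ← Finset.prod_Ico_consecutive _ (Nat.zero_le G.ns) G.hns]
      have h2 : ∏ j ∈ Finset.Ico 0 G.ns, (if j < G.ns then (1 : ℝ) else C.c j) = 1 :=
        Finset.prod_eq_one fun j hj => if_pos (Finset.mem_Ico.1 hj).2
      rw [h2, one_mul]
      refine Finset.prod_congr rfl fun j hj => ?_
      rw [if_neg (not_lt.2 (Finset.mem_Ico.1 hj).1)]
    rw [hw] at hmain
    have hN : (Nat.card {p : Fin G.M → α // (∀ j : Fin G.M, p j ∈ G.X j) ∧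
      (∀ j, G.ty (p j) = t j) ∧
      ((g, x) : G.Cod) ∈ G.Selp p ∧ ∀ q : Fin G.M, G.ns ≤ q → ∀ v ∈ G.F (G.ty (p q)),
      G.equ p (g', x') q v = d q * G.e v (x q)} : ℝ) ≤
        Nat.card {p : Fin G.M → α // C.Sol G.M 0 p} := by exact_mod_cast hle
    calc _ ≤ (Nat.card {p : Fin G.M → α // C.Sol G.M 0 p} : ℝ) *
          ((C.BB G.M : ℝ) * (Nat.card V : ℝ) ^ 3) :=
          mul_le_mul hN hBB (Finset.prod_nonneg fun j _ => by positivity) (Nat.cast_nonneg _)
      _ = (Nat.card {p : Fin G.M → α // C.Sol G.M 0 p} : ℝ) * C.BB G.M *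
          (Nat.card V : ℝ) ^ 3 := by ring
      _ ≤ _ := mul_le_mul_of_nonneg_right hmain (by positivity)

variable [Fintype Th] {A : Finset (Fin G.M)} {sp : Th → Prop} {K : Submodule (ZMod 2) Z}
  {κ δ : ℝ} [Finite V] [Finite Z] [Inhabited Th]

/-- The pairs of a point and a Selmer code for one solution supported on the small places, not
zero. -/
def PS (d : Fin G.M → ZMod 2) (w : G.Cod) (pc : (Fin G.M → α) × G.Cod) : Prop :=
  (∀ j : Fin G.M, pc.1 j ∈ G.X j) ∧ pc.2 ∈ G.Selp pc.1 ∧
    (∃ j : Fin G.M, G.ns ≤ j ∧ pc.2.2 j ≠ 0) ∧ (∀ j, w.2 j ∈ G.F (G.ty (pc.1 j))) ∧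
    ∀ q : Fin G.M, G.ns ≤ q → ∀ v ∈ G.F (G.ty (pc.1 q)),
      G.equ pc.1 w q v = d q * G.e v (pc.2.2 q)

omit [Fintype Th] [Inhabited Th] in
theorem finite_PS (d : Fin G.M → ZMod 2) (w : G.Cod) : Finite {pc // PS d w pc} := by
  have : ∀ j : Fin G.M, Finite (G.X j) := fun j => (G.hX j).to_subtype
  exact Finite.of_injective (fun pW : {pc // PS d w pc} =>
    ((fun j => ⟨pW.1.1 j, pW.2.1 j⟩, pW.1.2) : ((j : Fin G.M) → G.X j) × G.Cod)) (by
      intro a b hab
      simp only [Prod.mk.injEq] at hab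
      apply Subtype.ext
      refine Prod.ext ?_ hab.2
      funext j
      exact congrArg Subtype.val (congrFun hab.1 j))

theorem mom_sml (h : G.GW A sp K κ δ) (hV : 2 ≤ Nat.card V) (d : Fin G.M → ZMod 2) (w : G.Cod)
    (hw0 : ∀ j : Fin G.M, G.ns ≤ j → w.2 j = 0) (hne : ∃ j, w.2 j ≠ 0) :
    (Nat.card {pc // PS d w pc} : ℝ) ≤
      Nat.card Z * (Nat.card V : ℝ) ^ 3 *
        ((1 + δ) ^ G.M * (1 + δ - κ / 2) ^ A.card * G.pts) := by
  classical
  have : ∀ j : Fin G.M, Finite (G.X j) := fun j => (G.hX j).to_subtype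
  let Xs : (Fin G.M → Th) → Type := fun t =>
    {x : (j : Fin G.M) → G.F (t j) // (∀ j, w.2 j ∈ G.F (t j)) ∧
      ∃ top : Fin G.M, G.ns ≤ top ∧ (x top : V) ≠ 0 ∧ ∀ j, top < j → (x j : V) = 0}
  let Ps : (t : Fin G.M → Th) → Z → Xs t → Type := fun t g x =>
    {p : Fin G.M → α // (∀ j : Fin G.M, p j ∈ G.X j) ∧ (∀ j, G.ty (p j) = t j) ∧
      ((g, fun j => (x.1 j : V)) : G.Cod) ∈ G.Selp p ∧
      ∀ q : Fin G.M, G.ns ≤ q → ∀ v ∈ G.F (G.ty (p q)),
      G.equ p (w.1, w.2) q v = d q * G.e v (x.1 q : V)}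
  have hPf : ∀ t g x, Finite (Ps t g x) := fun t g x =>
    Finite.of_injective (fun p : Ps t g x =>
      (fun j => ⟨p.1 j, p.2.1 j⟩ : (j : Fin G.M) → G.X j)) (by
        intro a b hab
        apply Subtype.ext
        funext j
        exact congrArg Subtype.val (congrFun hab j))
  have hXf : ∀ t, Finite (Xs t) := fun t => inferInstance
  have htopex : ∀ pc : {pc // PS d w pc}, ∃ top : Fin G.M, G.ns ≤ top ∧ pc.1.2.2 top ≠ 0 ∧
      ∀ j, top < j → pc.1.2.2 j = 0 := by
    intro pc
    obtain ⟨j0, hj0, hne0⟩ := pc.2.2.2.1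
    let f : ℕ → V := fun j => if h : j < G.M then pc.1.2.2 ⟨j, h⟩ else 0
    have hf : ∀ j : Fin G.M, f j = pc.1.2.2 j := fun j => by simp [f]
    have h1 := tp_spec (f := f) j0.2 (by rw [hf]; exact hne0)
    have h2 := le_tp (f := f) j0.2 (by rw [hf]; exact hne0)
    refine ⟨⟨tp G.M f, h1.1⟩, hj0.trans h2, ?_, fun j hj => ?_⟩
    · rw [← hf]
      exact h1.2
    · by_contra hc
      rw [← hf] at hc
      exact absurd (le_tp j.2 hc) (not_le.2 hj)
  have h1 : Nat.card {pc // PS d w pc} ≤
      Nat.card (Σ t : Fin G.M → Th, Σ g : Z, Σ x : Xs t, Ps t g x) := by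
    refine Nat.card_le_card_of_injective (fun pc : {pc // PS d w pc} =>
      (⟨fun j => G.ty (pc.1.1 j), pc.1.2.1,
        ⟨fun j => ⟨pc.1.2.2 j, pc.2.2.1.1 j⟩, pc.2.2.2.2.1, htopex pc⟩,
        ⟨pc.1.1, pc.2.1, fun j => rfl, pc.2.2.1, pc.2.2.2.2.2⟩⟩ :
        Σ t : Fin G.M → Th, Σ g : Z, Σ x : Xs t, Ps t g x)) ?_
    intro a b hab
    have h2 := congrArg (fun s : (Σ t : Fin G.M → Th, Σ g : Z, Σ x : Xs t, Ps t g x) =>
      (s.2.2.2.1, s.2.1, fun j => (s.2.2.1.1 j : V))) hab
    simp only [Prod.mk.injEq] at h2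
    apply Subtype.ext
    exact Prod.ext h2.1 (Prod.ext h2.2.1 h2.2.2)
  have hF : ∀ (t : Fin G.M → Th) (j : Fin G.M), (1 : ℝ) ≤ Nat.card (G.F (t j)) := fun t j => by
    exact_mod_cast Nat.card_pos
  let PF : (Fin G.M → Th) → ℝ := fun t => ∏ j : Fin G.M, ((Nat.card (G.F (t j)) : ℝ) *
        (if G.ns ≤ j then (Nat.card (G.F (t j)) : ℝ) else 1))
  have hPF : ∀ t, 0 < PF t := by
    intro t
    refine Finset.prod_pos fun j _ => mul_pos (by linarith [hF t j]) ?_
    split_ifs
    · linarith [hF t j]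
    · exact one_pos
  have h2 : (Nat.card {pc // PS d w pc} : ℝ) ≤
      ∑ t : Fin G.M → Th, (Nat.card Z : ℝ) * (Nat.card (Xs t) *
        ((∏ j : Fin G.M, G.wt j (t j)) * (Nat.card V : ℝ) ^ 3 / PF t)) := by
    refine le_trans (Nat.cast_le.2 h1) ?_
    rw [Nat.card_sigma, Nat.cast_sum]
    refine Finset.sum_le_sum fun t _ => ?_
    have := Fintype.ofFinite Z
    have := Fintype.ofFinite (Xs t)
    rw [Nat.card_sigma, Nat.cast_sum]
    have h3 : ∀ g : Z, (Nat.card (Σ x : Xs t, Ps t g x) : ℝ) ≤ Nat.card (Xs t) *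
        ((∏ j : Fin G.M, G.wt j (t j)) * (Nat.card V : ℝ) ^ 3 / PF t) := by
      intro g
      rw [Nat.card_sigma, Nat.cast_sum]
      have h4 : ∀ x : Xs t, (Nat.card (Ps t g x) : ℝ) ≤
          (∏ j : Fin G.M, G.wt j (t j)) * (Nat.card V : ℝ) ^ 3 / PF t := by
        intro x
        obtain ⟨top, htop1, htop2, htop3⟩ := x.2.2
        rw [le_div_iff₀ (hPF t)]
        exact fib_two d top t g w.1 (fun j => (x.1 j : V)) (fun j => (x.1 j).2) htop1 htop3 htop2
          w.2 x.2.1 hw0 hne
      calc _ ≤ ∑ _x : Xs t, (∏ j : Fin G.M, G.wt j (t j)) *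
            (Nat.card V : ℝ) ^ 3 / PF t := Finset.sum_le_sum fun x _ => h4 x
        _ = _ := by
            rw [Finset.sum_const, Finset.card_univ, nsmul_eq_mul,
              Nat.card_eq_fintype_card (α := Xs t)]
    calc _ ≤ ∑ _g : Z, (Nat.card (Xs t) *
          ((∏ j : Fin G.M, G.wt j (t j)) * (Nat.card V : ℝ) ^ 3 / PF t)) :=
          Finset.sum_le_sum fun g _ => h3 g
      _ = _ := by
          rw [Finset.sum_const, Finset.card_univ, nsmul_eq_mul, Nat.card_eq_fintype_card (α := Z)]
  refine h2.trans ?_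
  have h10 : κ / 2 = κ * (1 / 2) := by ring
  rw [h10]
  refine le_trans ?_ (mul_le_mul_of_nonneg_left (sum_rho h (r0 := 1 / 2) (by norm_num)
    (by norm_num)) (by positivity))
  rw [Finset.mul_sum]
  refine Finset.sum_le_sum fun t _ => ?_
  have h5 : (Nat.card (Xs t) : ℝ) ≤ ∏ j : Fin G.M, (Nat.card (G.F (t j)) : ℝ) := by
    have h6 : Nat.card (Xs t) ≤ Nat.card ((j : Fin G.M) → G.F (t j)) :=
      Nat.card_le_card_of_injective (fun x : Xs t => x.1) Subtype.val_injective
    rw [Nat.card_pi] at h6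
    exact_mod_cast h6
  have hw : 0 ≤ ∏ j : Fin G.M, G.wt j (t j) := Finset.prod_nonneg fun j _ => G.wt_nonneg _ _
  have h7 : (∏ j : Fin G.M, (Nat.card (G.F (t j)) : ℝ)) / PF t ≤
      ∏ j : Fin G.M, (if j ∈ A ∧ sp (t j) then (1 - 1 / 2 : ℝ) else 1) := by
    rw [div_le_iff₀ (hPF t), ← Finset.prod_mul_distrib]
    refine Finset.prod_le_prod (fun j _ => Nat.cast_nonneg _) fun j _ => ?_
    by_cases hj : j ∈ A ∧ sp (t j)
    · rw [if_pos hj, if_pos (h.ns_le j hj.1)]
      have h3 : (2 : ℝ) ≤ Nat.card (G.F (t j)) := by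
        rw [h.sp_top _ hj.2, Nat.card_congr (Submodule.topEquiv (R := ZMod 2) (M := V)).toEquiv]
        exact_mod_cast hV
      nlinarith
    · rw [if_neg hj, one_mul]
      refine le_mul_of_one_le_right (by linarith [hF t j]) ?_
      split_ifs
      · exact hF t j
      · exact le_rfl
  rw [Finset.prod_mul_distrib]
  calc (Nat.card Z : ℝ) * (Nat.card (Xs t) *
        ((∏ j : Fin G.M, G.wt j (t j)) * (Nat.card V : ℝ) ^ 3 / PF t)) ≤
      (Nat.card Z : ℝ) * ((∏ j : Fin G.M, (Nat.card (G.F (t j)) : ℝ)) *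
        ((∏ j : Fin G.M, G.wt j (t j)) * (Nat.card V : ℝ) ^ 3 / PF t)) := by
        refine mul_le_mul_of_nonneg_left (mul_le_mul_of_nonneg_right h5 ?_) (Nat.cast_nonneg _)
        exact div_nonneg (mul_nonneg hw (by positivity)) (hPF t).le
    _ = Nat.card Z * (Nat.card V : ℝ) ^ 3 * ((∏ j : Fin G.M, G.wt j (t j)) *
        ((∏ j : Fin G.M, (Nat.card (G.F (t j)) : ℝ)) / PF t)) := by ring
    _ ≤ _ := mul_le_mul_of_nonneg_left (mul_le_mul_of_nonneg_left h7 hw) (by positivity)

end Pool.Agent.SmNH.J
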