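import Pool.Agent.Lib.SmNH.J.Loc

/-!
HEIGHTS over SMITH-U, block J+: from the abstract typical points to `TypHN`.
-/

set_option autoImplicit false

open Module Finset

namespace Pool.Agent.SmNH.J

open Pool.Agent.SmN Pool.Agent.SmN.J

theorem Bst_sum (r : ℕ) (i : Fin (r + 2)) (E : Fin (r + 2) → ZMod 2) :
    ∑ k, Bst r i k * E k = if i = 0 then E 1 else 0 := by
  by_cases hi : i = 0
  · rw [if_pos hi, Finset.sum_eq_single 1]
    · simp [Bst, hi]
    · intro k _ hk
      simp [Bst, hk]
    · intro h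
      exact absurd (mem_univ _) h
  · rw [if_neg hi]
    refine Finset.sum_eq_zero fun k _ => ?_
    simp [Bst, hi]

variable {G V V1 Pl : Type} [Group G] [AddCommGroup V] [DistribMulAction G V]
  [AddCommGroup V1] [Module (ZMod 2) V1] {S : Sys G V V1 Pl} {X : PSys} {cd : CData S X}
  {Geo : Subgroup G} {fr : G} {q a C : ℕ} {N1 : Subgroup G}

/-- From the abstract typical points to `TypHN`. -/
theorem typHN_of [Nontrivial V1] (H : Hyp cd Geo fr q a C N1) {n : ℕ} (g : Grid cd n) {J : Type}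
    [Fintype J] (σ : Fin g.M ≃ J) (p : J → cd.Mk) (hp : ∀ j : Fin g.M, p (σ j) ∈ g.Xs j)
    (d : Fin g.M → ZMod 2) (hd : ∀ j : Fin g.M, (X.deg (p (σ j)).1 : ZMod 2) = d j)
    {A : Finset (Fin g.M)} {R k : ℕ} {ρ : ℝ} {N0 : ℕ} (hk : ρ * Nat.card J ≤ k)
    (hρ : 0 < ρ * Nat.card J) (hN0 : ∀ j ∈ A, N0 ≤ X.deg (p (σ j)).1)
    (hlarge : ∀ j : Fin g.M, N0 ≤ X.deg (p (σ j)).1 → g.ns ≤ j)
    (hT1 : cd.TypN p R ρ N0)
    (hT2 : TypH (gd H g) A (spK cd) d R k (fun j => p (σ j))) :
    cd.TypHN p R ρ N0 := by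
  classical
  have := H.hS.fin1
  let f : cd.CodeN J →ₗ[ZMod 2] (gd H g).Cod :=
    { toFun := fun c => (c.1, fun j => c.2 (σ j))
      map_add' := fun _ _ => rfl
      map_smul' := fun _ _ => rfl }
  have hf2 : ∀ c (j : Fin g.M), (f c).2 j = c.2 (σ j) := fun c j => rfl
  have hf : ∀ c ∈ cd.SelpN p, f c ∈ (gd H g).Selp (fun j => p (σ j)) := fun c hc =>
    mem_gd_Selp H g (fun j => p (σ j)) hp (f c) (reindex σ p c hc)
  refine ⟨hT1, fun r c w hc hI hwv hinh v v' => ?_⟩
  -- independence on the large places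
  have hIL : (gd H g).IndL (fun i => (f (c i)).2) := by
    intro α hα
    by_contra hne
    obtain ⟨i0, hi0⟩ : ∃ i, α i ≠ 0 := by
      by_contra hcon
      push Not at hcon
      exact hne (funext hcon)
    have hα1 : α i0 = 1 := by
      have h2 : ∀ a : ZMod 2, a ≠ 0 → a = 1 := by decide
      exact h2 _ hi0
    obtain ⟨v0, hv0⟩ := exists_ne (0 : V1)
    have h1 := hT1.generic (r + 1) c hc hI (fun i => if i = i0 then v0 else 0)
    have h2 : 0 < Nat.card {j : J // N0 ≤ X.deg (p j).1 ∧ cd.Split (p j) ∧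
        ∀ i, (c i).2 j = if i = i0 then v0 else 0} := by
      have h3 := hρ.trans_le h1
      exact_mod_cast h3
    obtain ⟨⟨j, hj1, hj2, hj3⟩⟩ := (Nat.card_pos_iff.1 h2).1
    have h4 := hα (σ.symm j) (hlarge (σ.symm j) (by rw [Equiv.apply_symm_apply]; exact hj1))
    have h5 : ∀ i, (f (c i)).2 (σ.symm j) = if i = i0 then v0 else 0 := by
      intro i
      rw [← hj3 i]
      change (c i).2 (σ (σ.symm j)) = _
      rw [Equiv.apply_symm_apply]
    have h6 : ∑ i, α i • (if i = i0 then v0 else 0) = 0 := by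
      refine Eq.trans (Finset.sum_congr rfl fun i _ => ?_) h4
      exact congrArg (fun x => α i • x) (h5 i).symm
    simp only [smul_ite, smul_zero, Finset.sum_ite_eq', mem_univ, if_true, hα1, one_smul] at h6
    exact hv0 h6
  -- the rank
  have hrR : r + 1 ≤ R := by
    have hfinS : Finite (cd.SelpN p) := by
      have : Finite (cd.CodeN J) := inferInstanceAs (Finite ((Fin cd.h → ZMod 2) × (J → V1)))
      infer_instance
    have h1 : Nat.card (Fin (r + 1) → ZMod 2) ≤ Nat.card (cd.SelpN p) := by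
      refine Nat.card_le_card_of_injective (fun α : Fin (r + 1) → ZMod 2 =>
        (⟨∑ i, α i • c i, selpN_sum H.hc c hc α⟩ : cd.SelpN p)) ?_
      intro α β h
      have h2 : ∑ i, α i • c i = ∑ i, β i • c i := congrArg Subtype.val h
      have h3 := hI (α - β) ⟨0, by
        simp only [Pi.sub_apply, sub_smul, Finset.sum_sub_distrib]
        rw [h2, sub_self]
        exact Prod.ext (map_zero cd.kb).symm rfl⟩
      exact sub_eq_zero.1 h3
    rw [Nat.card_fun, Nat.card_zmod, Nat.card_fin] at h1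
    exact (Nat.pow_le_pow_iff_right (by norm_num)).1 (h1.trans hT1.small)
  -- the inhomogeneous system
  have hcv0 : cd.ValidN (fun j => p (σ j)) ((c 0).1, fun j => (c 0).2 (σ j)) := fun j =>
    (hc 0).1 (σ j)
  have hwv0 : cd.ValidN (fun j => p (σ j)) (w.1, fun j => w.2 (σ j)) := fun j => hwv (σ j)
  have heqw : ∀ (j : Fin g.M), ∀ v ∈ (gd H g).F ((gd H g).ty (p (σ j))),
      (gd H g).equ (fun j => p (σ j)) (f w) j v = d j * (gd H g).e v ((f (c 0)).2 j) := by
    intro j v hv
    have h1 := gd_inh H g (fun j => p (σ j)) hp (w.1, fun j => w.2 (σ j))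
      ((c 0).1, fun j => (c 0).2 (σ j)) hwv0 hcv0 j (reindexH σ p w (c 0) j (hinh (σ j))) v hv
    rw [hd j] at h1
    exact h1
  have hwF : ∀ j : Fin g.M, (f w).2 j ∈ (gd H g).F ((gd H g).ty (p (σ j))) := by
    intro j
    change w.2 (σ j) ∈ FK cd (cd.kf (cd.phx (p (σ j))))
    rw [FK_kf H.hc]
    exact hwv (σ j)
  let W : Fin (r + 2) → (gd H g).Cod := Fin.cons (f w) (fun i => f (c i))
  have hW0 : W 0 = f w := rfl
  have hWs : ∀ i : Fin (r + 1), W i.succ = f (c i) := fun i => rfl
  have hSys : SysB (gd H g) d (Bst r) (fun j => p (σ j)) W := by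
    refine ⟨fun i j => ?_, fun i j v hv => ?_⟩
    · refine Fin.cases ?_ (fun i => ?_) i
      · exact hwF j
      · exact (hf _ (hc i)).1 j
    · rw [Bst_sum r i (fun k => (gd H g).e v ((W k).2 j))]
      refine Fin.cases ?_ (fun i => ?_) i
      · rw [if_pos rfl]
        exact heqw j v hv
      · rw [if_neg (Fin.succ_ne_zero i), mul_zero]
        exact (hf _ (hc i)).2 j v hv
  by_cases hWI : (gd H g).IndL (fun i => (W i).2)
  · -- generic
    have h1 := hT2.pat r (by omega) W hSys hWI (Fin.cons v' v)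
    have h2 : Nat.card ((gd H g).pc A (spK cd)
        (fun j => (gd H g).ty (p (σ j))) (fun i => (W i).2) (Fin.cons v' v : Fin (r + 2) → V1)) ≤
        Nat.card {j : J // N0 ≤ X.deg (p j).1 ∧ cd.Split (p j) ∧ (∀ i, (c i).2 j = v i) ∧
          w.2 j = v'} := by
      refine Nat.card_le_card_of_injective (fun j : (gd H g).pc A (spK cd)
        (fun j => (gd H g).ty (p (σ j))) (fun i => (W i).2)
          (Fin.cons v' v : Fin (r + 2) → V1) =>
        (⟨σ j.1, hN0 j.1 j.2.1, split_of_spK H.hc j.2.2.1, fun i => j.2.2.2 i.succ,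
          j.2.2.2 0⟩ :
          {j : J // N0 ≤ X.deg (p j).1 ∧ cd.Split (p j) ∧ (∀ i, (c i).2 j = v i) ∧
          w.2 j = v'})) ?_
      intro j j' h
      exact Subtype.ext (σ.injective (congrArg Subtype.val h))
    refine hk.trans ?_
    exact_mod_cast h1.trans h2
  · -- dependent
    exfalso
    unfold GD.IndL at hWI
    push Not at hWI
    obtain ⟨b, hb, hbne⟩ := hWI
    have hb0 : b 0 = 1 := by
      have h2 : ∀ a : ZMod 2, a ≠ 0 → a = 1 := by decide
      refine h2 _ fun h3 => hbne ?_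
      have h4 := hIL (fun i => b i.succ) (fun j hj => by
        have h5 := hb j hj
        rw [Fin.sum_univ_succ, h3, zero_smul, zero_add] at h5
        exact h5)
      funext i
      refine Fin.cases ?_ (fun i => ?_) i
      · exact h3
      · exact congrFun h4 i
    obtain ⟨j0, hj0, hne0⟩ : ∃ j : Fin (gd H g).M, (gd H g).ns ≤ j ∧ (f (c 0)).2 j ≠ 0 := by
      by_contra hcon
      push Not at hcon
      have h1 := hIL (fun i => if i = 0 then 1 else 0) (fun j hj => by
        simp only [ite_smul, one_smul, zero_smul, Finset.sum_ite_eq', mem_univ, if_true]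
        exact hcon j hj)
      have h2 := congrFun h1 0
      simp at h2
    refine hT2.sml (f (c 0)) (hf _ (hc 0)) ⟨j0, hj0, hne0⟩ (∑ i, b i • W i) ?_ ?_ ?_
    · intro j hj
      rw [snd_sum]
      exact hb j hj
    · intro j
      rw [snd_sum]
      exact Submodule.sum_mem _ fun i _ => Submodule.smul_mem _ _ (hSys.1 i j)
    · intro j _ v hv
      rw [equ_sum]
      have h1 : ∀ i, b i * (gd H g).equ (fun j => p (σ j)) (W i) j v =
          if i = 0 then d j * (gd H g).e v ((f (c 0)).2 j) else 0 := by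
        intro i
        rw [hSys.2 i j v hv, Bst_sum r i (fun k => (gd H g).e v ((W k).2 j))]
        split_ifs with hi
        · rw [hi, hb0, one_mul]
          rfl
        · rw [mul_zero, mul_zero]
      rw [Finset.sum_congr rfl fun i _ => h1 i, Finset.sum_ite_eq', if_pos (mem_univ _)]

end Pool.Agent.SmNH.J
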