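import Pool.Agent.Lib.SmNH.J.Sml

/-!
HEIGHTS over SMITH-U, block J+: the number of the points of a grid which are not typical in the
strong sense (abstract form).
-/

set_option autoImplicit false

open Module Finset

namespace Pool.Agent.SmNH.J

open Pool.Agent.SmN.J

variable {V Th α Z : Type} [AddCommGroup V] [Module (ZMod 2) V] [AddCommGroup Z]
  [Module (ZMod 2) Z] (G : GD V Th α Z)

/-- The matrix of the inhomogeneous system: the right hand side of the equation of `W 0` is given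
by `W 1`. -/
def Bst (r : ℕ) : Fin (r + 2) → Fin (r + 2) → ZMod 2 := fun i j => if i = 0 ∧ j = 1 then 1 else 0

/-- The typical points in the strong sense. -/
structure TypH (A : Finset (Fin G.M)) (sp : Th → Prop) (d : Fin G.M → ZMod 2) (R k : ℕ)
    (p : Fin G.M → α) : Prop where
  sml : ∀ c ∈ G.Selp p, (∃ j : Fin G.M, G.ns ≤ j ∧ c.2 j ≠ 0) → ∀ w : G.Cod,
    (∀ j : Fin G.M, G.ns ≤ j → w.2 j = 0) → (∀ j, w.2 j ∈ G.F (G.ty (p j))) →
    ¬ ∀ q : Fin G.M, G.ns ≤ q → ∀ v ∈ G.F (G.ty (p q)), G.equ p w q v = d q * G.e v (c.2 q)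
  pat : ∀ r < R, ∀ W : Fin (r + 2) → G.Cod, SysB G d (Bst r) p W →
    G.IndL (fun i => (W i).2) → ∀ u : Fin (r + 2) → V,
    k ≤ Nat.card (G.pc A sp (fun j => G.ty (p j)) (fun i => (W i).2) u)

variable {G} [Finite V] [Finite Z] [Fintype Th] [Inhabited Th] {A : Finset (Fin G.M)}
  {sp : Th → Prop} {K : Submodule (ZMod 2) Z} {κ δ : ℝ}

/-- One solution supported on the small places. -/
theorem card_PS (h : G.GW A sp K κ δ) (hV : 2 ≤ Nat.card V)
    (he : ∀ y : V, (∀ v, G.e v y = 0) → y = 0) (d : Fin G.M → ZMod 2) (hd : ∀ j ∈ A, d j = 1)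
    (w : G.Cod) (hw0 : ∀ j : Fin G.M, G.ns ≤ j → w.2 j = 0) :
    (Nat.card {pc // PS d w pc} : ℝ) ≤
      2 * Nat.card Z * (Nat.card V : ℝ) ^ 3 *
        ((1 + δ) ^ G.M * (1 + δ - κ / 2) ^ A.card * G.pts) := by
  classical
  have hV1 : (1 : ℝ) ≤ Nat.card V := by exact_mod_cast Nat.card_pos
  have h4 : 0 ≤ (1 + δ) ^ G.M * (1 + δ - κ / 2) ^ A.card * G.pts := by
    have := h.κ1
    have := h.δ0
    exact mul_nonneg (mul_nonneg (pow_nonneg (by linarith) _) (pow_nonneg (by linarith) _))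
      GD.pts_nonneg
  have hZ0 : (0 : ℝ) ≤ Nat.card Z := Nat.cast_nonneg _
  by_cases hne : ∃ j, w.2 j ≠ 0
  · refine (mom_sml h hV d w hw0 hne).trans (mul_le_mul_of_nonneg_right ?_ h4)
    refine mul_le_mul_of_nonneg_right ?_ (by positivity)
    linarith
  · push Not at hne
    have h1 := mom_det h hV he (fun t v => G.zz t v w.1)
    refine le_trans ?_ (h1.trans (mul_le_mul_of_nonneg_right ?_ h4))
    · have := G.finite_FamE (I := Unit) (G.Fam (I := Unit) (fun t x => ∀ j ∈ A, sp (t j) → ∀ v,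
        G.e v (x () j) = G.zz (t j) v w.1)) fun pW h => h.1
      refine Nat.cast_le.2 (Nat.card_le_card_of_injective (fun pc : {pc // PS d w pc} =>
        (⟨(pc.1.1, fun _ => pc.1.2), pc.2.1, fun _ => pc.2.2.1, fun a ha => ?_,
          fun j hj hs v => ?_⟩ :
          {pW // G.Fam (I := Unit) (fun t x => ∀ j ∈ A, sp (t j) → ∀ v,
            G.e v (x () j) = G.zz (t j) v w.1) pW})) ?_)
      · obtain ⟨j, hj, hne0⟩ := pc.2.2.2.1
        have h2 := ha j hj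
        simp only [Fintype.sum_unique] at h2
        rcases smul_eq_zero.1 h2 with h3 | h3
        · funext i
          exact h3
        · exact absurd h3 hne0
      · have h2 := pc.2.2.2.2.2 j (h.ns_le j hj) v (by
          rw [h.sp_top _ hs]
          trivial)
        rw [hd j hj, one_mul, GD.equ_small pc.1.1 w (fun _ => 0) (fun j => (hne j).symm)
          (fun _ _ => rfl) j (h.ns_le j hj) v] at h2
        simp only [map_zero, Finset.sum_const_zero, add_zero] at h2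
        exact h2.symm
      · intro a b hab
        have h2 := congrArg (fun s : {pW // G.Fam (I := Unit) (fun t x => ∀ j ∈ A, sp (t j) → ∀ v,
            G.e v (x () j) = G.zz (t j) v w.1) pW} => (s.1.1, s.1.2 ())) hab
        exact Subtype.ext h2
    · have h5 : (Nat.card V : ℝ) ≤ (Nat.card V : ℝ) ^ 3 := by nlinarith [sq_nonneg (Nat.card V : ℝ)]
      exact mul_le_mul_of_nonneg_left h5 (by positivity)

/-- The points with a solution supported on the small places. -/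
theorem card_smlH (h : G.GW A sp K κ δ) (hV : 2 ≤ Nat.card V)
    (he : ∀ y : V, (∀ v, G.e v y = 0) → y = 0) (d : Fin G.M → ZMod 2) (hd : ∀ j ∈ A, d j = 1) :
    (Nat.card {p : Fin G.M → α // (∀ j : Fin G.M, p j ∈ G.X j) ∧
      ∃ c ∈ G.Selp p, (∃ j : Fin G.M, G.ns ≤ j ∧ c.2 j ≠ 0) ∧ ∃ w : G.Cod,
      (∀ j : Fin G.M, G.ns ≤ j → w.2 j = 0) ∧ (∀ j, w.2 j ∈ G.F (G.ty (p j))) ∧
      ∀ q : Fin G.M, G.ns ≤ q → ∀ v ∈ G.F (G.ty (p q)), G.equ p w q v = d q * G.e v (c.2 q)} :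
      ℝ) ≤
      Nat.card Z * (2 * Nat.card Z * (Nat.card V : ℝ) ^ 3) * (Nat.card V : ℝ) ^ G.ns *
        ((1 + δ) ^ G.M * (1 + δ - κ / 2) ^ A.card * G.pts) := by
  classical
  let SC := {w : G.Cod // ∀ j : Fin G.M, G.ns ≤ j → w.2 j = 0}
  let Ps : SC → Type := fun w => {pc // PS d w.1 pc}
  have hPf : ∀ c, Finite (Ps c) := fun c => finite_PS d c.1
  have hSf : Fintype SC := Fintype.ofFinite _
  have h1 : Nat.card {p : Fin G.M → α // (∀ j : Fin G.M, p j ∈ G.X j) ∧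
      ∃ c ∈ G.Selp p, (∃ j : Fin G.M, G.ns ≤ j ∧ c.2 j ≠ 0) ∧ ∃ w : G.Cod,
      (∀ j : Fin G.M, G.ns ≤ j → w.2 j = 0) ∧ (∀ j, w.2 j ∈ G.F (G.ty (p j))) ∧
      ∀ q : Fin G.M, G.ns ≤ q → ∀ v ∈ G.F (G.ty (p q)), G.equ p w q v = d q * G.e v (c.2 q)} ≤
      Nat.card (Σ c : SC, Ps c) := by
    have hex : ∀ p : {p : Fin G.M → α // (∀ j : Fin G.M, p j ∈ G.X j) ∧
      ∃ c ∈ G.Selp p, (∃ j : Fin G.M, G.ns ≤ j ∧ c.2 j ≠ 0) ∧ ∃ w : G.Cod,
      (∀ j : Fin G.M, G.ns ≤ j → w.2 j = 0) ∧ (∀ j, w.2 j ∈ G.F (G.ty (p j))) ∧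
      ∀ q : Fin G.M, G.ns ≤ q → ∀ v ∈ G.F (G.ty (p q)), G.equ p w q v = d q * G.e v (c.2 q)},
      ∃ s : (Σ c : SC, Ps c), s.2.1.1 = p.1 := by
      rintro ⟨p, hp, c, hc, hcn, w, hw0, hwF, hw⟩
      exact ⟨⟨⟨w, hw0⟩, ⟨(p, c), hp, hc, hcn, hwF, hw⟩⟩, rfl⟩
    choose s hs using hex
    refine Nat.card_le_card_of_injective s ?_
    intro a b hab
    apply Subtype.ext
    rw [← hs a, ← hs b, hab]
  rw [Nat.card_sigma] at h1
  have h2 : (Nat.card SC : ℝ) ≤ Nat.card Z * (Nat.card V : ℝ) ^ G.ns := by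
    have h3 : Nat.card SC ≤ Nat.card (Z × (Fin G.ns → V)) := by
      refine Nat.card_le_card_of_injective (fun c : SC =>
        ((c.1.1, fun i => c.1.2 ⟨i, i.2.trans_le G.hns⟩) : Z × (Fin G.ns → V))) ?_
      intro a b hab
      simp only [Prod.mk.injEq] at hab
      apply Subtype.ext
      refine Prod.ext hab.1 ?_
      funext j
      by_cases hj : (j : ℕ) < G.ns
      · exact congrFun hab.2 ⟨j, hj⟩
      · rw [a.2 j (by omega), b.2 j (by omega)]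
    rw [Nat.card_prod, Nat.card_fun, Nat.card_fin] at h3
    exact_mod_cast h3
  have h4 : 0 ≤ (1 + δ) ^ G.M * (1 + δ - κ / 2) ^ A.card * G.pts := by
    have := h.κ1
    have := h.δ0
    exact mul_nonneg (mul_nonneg (pow_nonneg (by linarith) _) (pow_nonneg (by linarith) _))
      GD.pts_nonneg
  have hZ0 : (0 : ℝ) ≤ Nat.card Z := Nat.cast_nonneg _
  refine (Nat.cast_le.2 h1).trans ?_
  rw [Nat.cast_sum]
  calc _ ≤ ∑ _c : SC, (2 * Nat.card Z * (Nat.card V : ℝ) ^ 3 *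
        ((1 + δ) ^ G.M * (1 + δ - κ / 2) ^ A.card * G.pts)) :=
        Finset.sum_le_sum fun c _ => card_PS h hV he d hd c.1 c.2
    _ = Nat.card SC * (2 * Nat.card Z * (Nat.card V : ℝ) ^ 3 *
        ((1 + δ) ^ G.M * (1 + δ - κ / 2) ^ A.card * G.pts)) := by
        rw [Finset.sum_const, Finset.card_univ, nsmul_eq_mul, Nat.card_eq_fintype_card (α := SC)]
    _ ≤ Nat.card Z * (Nat.card V : ℝ) ^ G.ns * (2 * Nat.card Z * (Nat.card V : ℝ) ^ 3 *
        ((1 + δ) ^ G.M * (1 + δ - κ / 2) ^ A.card * G.pts)) :=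
        mul_le_mul_of_nonneg_right h2 (mul_nonneg (by positivity) h4)
    _ = _ := by ring

/-- The points with a rare pattern. -/
theorem card_patH (h : G.GW A sp K κ δ) (d : Fin G.M → ZMod 2) (r k : ℕ) :
    (Nat.card {p : Fin G.M → α // (∀ j : Fin G.M, p j ∈ G.X j) ∧
      ∃ W : Fin (r + 2) → G.Cod, SysB G d (Bst r) p W ∧ G.IndL (fun i => (W i).2) ∧
      ∃ u : Fin (r + 2) → V,
        Nat.card (G.pc A sp (fun j => G.ty (p j)) (fun i => (W i).2) u) < k} : ℝ) ≤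
      2 ^ ((r + 2) * (r + 2)) * (Nat.card Z : ℝ) ^ (r + 2) *
      (Nat.card V : ℝ) ^ ((r + 2) * (r + 2)) * ((Nat.card V : ℝ) ^ (r + 2) *
      (2 ^ k * ((1 + δ) ^ G.M * (1 + δ - κ / (2 * (Nat.card V : ℝ) ^ (r + 2))) ^ A.card *
        G.pts))) := by
  classical
  have h0 := mom_patB h (Fin (r + 2)) d (Bst r) k
  rw [Fintype.card_fin] at h0
  refine le_trans ?_ h0
  have := G.finite_FamE (I := Fin (r + 2)) (FamB G d (Bst r) (fun t x => ∃ w : Fin (r + 2) → V,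
    Nat.card (G.pc A sp t x w) < k)) fun pW h => h.1
  refine Nat.cast_le.2 (Nat.card_le_card_of_injective (fun p : {p : Fin G.M → α //
      (∀ j : Fin G.M, p j ∈ G.X j) ∧
      ∃ W : Fin (r + 2) → G.Cod, SysB G d (Bst r) p W ∧ G.IndL (fun i => (W i).2) ∧
      ∃ u : Fin (r + 2) → V,
        Nat.card (G.pc A sp (fun j => G.ty (p j)) (fun i => (W i).2) u) < k} =>
    (⟨(p.1, p.2.2.choose), p.2.1, p.2.2.choose_spec.1, p.2.2.choose_spec.2.1,
      p.2.2.choose_spec.2.2⟩ : {pW // FamB G d (Bst r) (fun t x => ∃ w : Fin (r + 2) → V,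
        Nat.card (G.pc A sp t x w) < k) pW})) ?_)
  intro a b hab
  exact Subtype.ext (congrArg (fun s : {pW // FamB G d (Bst r) (fun t x => ∃ w : Fin (r + 2) → V,
        Nat.card (G.pc A sp t x w) < k) pW} => s.1.1) hab)

/-- **The number of the points which are not typical in the strong sense.** -/
theorem card_notTypH (h : G.GW A sp K κ δ) (hV : 2 ≤ Nat.card V)
    (he : ∀ y : V, (∀ v, G.e v y = 0) → y = 0) (d : Fin G.M → ZMod 2) (hd : ∀ j ∈ A, d j = 1)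
    (R k : ℕ) :
    (Nat.card {p : Fin G.M → α // (∀ j : Fin G.M, p j ∈ G.X j) ∧ ¬ TypH G A sp d R k p} : ℝ) ≤
      Nat.card Z * (2 * Nat.card Z * (Nat.card V : ℝ) ^ 3) * (Nat.card V : ℝ) ^ G.ns *
        ((1 + δ) ^ G.M * (1 + δ - κ / 2) ^ A.card * G.pts) +
      ∑ r ∈ Finset.range R, 2 ^ ((r + 2) * (r + 2)) * (Nat.card Z : ℝ) ^ (r + 2) *
      (Nat.card V : ℝ) ^ ((r + 2) * (r + 2)) * ((Nat.card V : ℝ) ^ (r + 2) *
      (2 ^ k * ((1 + δ) ^ G.M * (1 + δ - κ / (2 * (Nat.card V : ℝ) ^ (r + 2))) ^ A.card *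
        G.pts))) := by
  classical
  have h1 := card_smlH h hV he d hd
  have h3 := fun r => card_patH h d r k
  refine le_trans ?_ (add_le_add h1 (Finset.sum_le_sum fun r _ => h3 r))
  let B1 := {p : Fin G.M → α // (∀ j : Fin G.M, p j ∈ G.X j) ∧
      ∃ c ∈ G.Selp p, (∃ j : Fin G.M, G.ns ≤ j ∧ c.2 j ≠ 0) ∧ ∃ w : G.Cod,
      (∀ j : Fin G.M, G.ns ≤ j → w.2 j = 0) ∧ (∀ j, w.2 j ∈ G.F (G.ty (p j))) ∧
      ∀ q : Fin G.M, G.ns ≤ q → ∀ v ∈ G.F (G.ty (p q)), G.equ p w q v = d q * G.e v (c.2 q)}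
  let B3 : Fin R → Type := fun r => {p : Fin G.M → α // (∀ j : Fin G.M, p j ∈ G.X j) ∧
      ∃ W : Fin (r + 2) → G.Cod, SysB G d (Bst r) p W ∧ G.IndL (fun i => (W i).2) ∧
      ∃ u : Fin (r + 2) → V,
        Nat.card (G.pc A sp (fun j => G.ty (p j)) (fun i => (W i).2) u) < k}
  have hf1 : Finite B1 := GD.finite_P _ fun p hp => hp.1
  have hf3 : ∀ r, Finite (B3 r) := fun r => GD.finite_P _ fun p hp => hp.1
  have key : Nat.card {p : Fin G.M → α // (∀ j : Fin G.M, p j ∈ G.X j) ∧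
      ¬ TypH G A sp d R k p} ≤ Nat.card (B1 ⊕ (Σ r, B3 r)) := by
    have hex : ∀ p : {p : Fin G.M → α // (∀ j : Fin G.M, p j ∈ G.X j) ∧
        ¬ TypH G A sp d R k p}, ∃ s : B1 ⊕ (Σ r, B3 r),
        (Sum.elim (fun b : B1 => b.1) (fun b : (Σ r, B3 r) => b.2.1)) s = p.1 := by
      rintro ⟨p, hp, hT⟩
      by_cases hb1 : ∃ c ∈ G.Selp p, (∃ j : Fin G.M, G.ns ≤ j ∧ c.2 j ≠ 0) ∧ ∃ w : G.Cod,
        (∀ j : Fin G.M, G.ns ≤ j → w.2 j = 0) ∧ (∀ j, w.2 j ∈ G.F (G.ty (p j))) ∧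
        ∀ q : Fin G.M, G.ns ≤ q → ∀ v ∈ G.F (G.ty (p q)), G.equ p w q v = d q * G.e v (c.2 q)
      · exact ⟨Sum.inl ⟨p, hp, hb1⟩, rfl⟩
      · have hb3 : ∃ r : Fin R, ∃ W : Fin (r + 2) → G.Cod, SysB G d (Bst r) p W ∧
            G.IndL (fun i => (W i).2) ∧ ∃ u : Fin (r + 2) → V,
            Nat.card (G.pc A sp (fun j => G.ty (p j)) (fun i => (W i).2) u) < k := by
          by_contra hcon
          refine hT ⟨fun c hc hcn w hw0 hwF hw => hb1 ⟨c, hc, hcn, w, hw0, hwF, hw⟩,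
            fun r hr W hW hI u => ?_⟩
          by_contra h4
          exact hcon ⟨⟨r, hr⟩, W, hW, hI, u, not_le.1 h4⟩
        obtain ⟨r, hr⟩ := hb3
        exact ⟨Sum.inr ⟨r, ⟨p, hp, hr⟩⟩, rfl⟩
    choose s hs using hex
    refine Nat.card_le_card_of_injective s ?_
    intro a b hab
    apply Subtype.ext
    rw [← hs a, ← hs b, hab]
  rw [Nat.card_sum, Nat.card_sigma] at key
  have h4 : ∑ r ∈ Finset.range R, (Nat.card {p : Fin G.M → α //
      (∀ j : Fin G.M, p j ∈ G.X j) ∧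
      ∃ W : Fin (r + 2) → G.Cod, SysB G d (Bst r) p W ∧ G.IndL (fun i => (W i).2) ∧
      ∃ u : Fin (r + 2) → V,
        Nat.card (G.pc A sp (fun j => G.ty (p j)) (fun i => (W i).2) u) < k} : ℝ) =
      ∑ r : Fin R, (Nat.card (B3 r) : ℝ) :=
    (Fin.sum_univ_eq_sum_range (fun r => (Nat.card {p : Fin G.M → α //
      (∀ j : Fin G.M, p j ∈ G.X j) ∧
      ∃ W : Fin (r + 2) → G.Cod, SysB G d (Bst r) p W ∧ G.IndL (fun i => (W i).2) ∧
      ∃ u : Fin (r + 2) → V,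
        Nat.card (G.pc A sp (fun j => G.ty (p j)) (fun i => (W i).2) u) < k} : ℝ)) R).symm
  rw [h4]
  exact_mod_cast key

end Pool.Agent.SmNH.J
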